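import Mathlib

/-!
The abstract hierarchy: contents of cells, local rules, and the substitution map.
-/

set_option autoImplicit false
set_option linter.unusedSimpArgs false
set_option linter.unnecessarySeqFocus false
set_option linter.unusedVariables false

namespace Pool.Agent.Lib.MP_4b554f_an

abbrev V := Fin 4 → ℤ

/-- Unit vectors. -/
def ee (j : Fin 4) : V := fun i => if i = j then 1 else 0

@[simp] theorem ee_self (j : Fin 4) : ee j j = 1 := by simp [ee]
theorem ee_ne {i j : Fin 4} (h : i ≠ j) : ee j i = 0 := by simp [ee, h]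

/-- Class of a digit: zero, one, or generic. -/
def cl (a : ℤ) : Fin 3 := if a = 0 then 0 else if a = 1 then 1 else 2

theorem cl_eq_zero {a : ℤ} : cl a = 0 ↔ a = 0 := by
  unfold cl; split_ifs <;> simp_all
theorem cl_eq_one {a : ℤ} : cl a = 1 ↔ a = 1 := by
  unfold cl; split_ifs <;> simp_all
theorem cl_eq_two {a : ℤ} : cl a = 2 ↔ a ≠ 0 ∧ a ≠ 1 := by
  unfold cl; split_ifs <;> simp_all

abbrev Ty := Fin 4 → Fin 3

def ty (d : V) : Ty := fun i => cl (d i)

/-- Content of a cell. -/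
structure Cont where
  b : V
  e : Fin 4 → Fin 4 → Fin 3
  f : Fin 4 → Fin 3
  rib : Fin 4 → Option V

/-- Effective type of a cell. -/
def eff (c : Cont) : Ty := fun i => if ∀ j, j ≠ i → c.e i j ≠ 0 then c.e i (i + 1) else 0

def axs (j : Fin 4) (t : Ty) : Prop := ∀ i, i ≠ j → t i = 0
def lin (j : Fin 4) (t : Ty) : Prop := ∀ i, i ≠ j → t i = 1
def cen (t : Ty) : Prop := ∀ i, t i = 1
def zoo (j i : Fin 4) (t : Ty) : Prop := i ≠ j ∧ t i = 0 ∧ ∀ k, k ≠ i → k ≠ j → t k = 1

def rng (m D : V) : Prop := ∀ i, 0 ≤ D i ∧ D i < m i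
def step (m : V) (j : Fin 4) (E D : V) : Prop :=
  (∀ i, i ≠ j → D i = E i) ∧ (E j + 1 = D j ∨ (D j = 0 ∧ m j - 1 ≤ E j))
def prd (m : V) (j : Fin 4) (D : V) : V :=
  fun i => if i = j then (if D j = 0 then m j - 1 else D j - 1) else D i
def scl (m : V) (i : Fin 4) (E : V) : Fin 3 :=
  if E i = m i - 1 then 0 else if E i = 0 then 1 else 2

/-- Unary rules. -/
structure Un (fl : Prop) (m m' : V) (c : Cont) : Prop where
  rb : rng m c.b
  ed : ∀ i, c.e i i = 0
  e2 : ∀ i j, i ≠ j → (cl (c.b i) ≠ 0 ∨ cl (c.b j) ≠ 0) → c.e i j = cl (c.b i)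
  e3 : ∀ i j, zoo j i (eff c) → eff c j = 0 → (c.f j ≠ 0 ∨ c.f i ≠ 0) → c.e i j = c.f j
  f3 : ∀ j, ¬ axs j (eff c) → (∀ i, ¬ zoo j i (eff c)) → c.f j = 0
  r0 : ∀ j, ¬ axs j (eff c) → ¬ lin j (eff c) → c.rib j = none
  r1 : ∀ j, lin j (eff c) → c.rib j ≠ none
  nz : ∃ i, eff c i ≠ 0
  rbd : ∀ j D, c.rib j = some D → ∀ i, 0 ≤ D i ∧ D i ≤ m' i
  ce : cen (eff c) → ∃ D, rng m' D ∧ ∀ j, c.rib j = some D
  f2 : ∀ i j E, (i ≠ 0 ∨ fl) → zoo j i (eff c) → eff c j = 1 → c.rib i = some E →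
    c.f j = scl m' i E

/-- Binary rules between a cell `c` and its lower neighbour `n` in direction `j`. -/
structure Bin (m m' : V) (j : Fin 4) (n c : Cont) : Prop where
  sb : step m j n.b c.b
  se : ∀ i k, i ≠ j → k ≠ j → c.e i k = n.e i k
  sf : c.f j = n.f j
  sr : ¬ cen (eff c) → c.rib j = n.rib j
  sc : cen (eff c) → ∃ E D, n.rib j = some E ∧ c.rib j = some D ∧ step m' j E D

def Valid (m m' : V) (A : V → Cont) : Prop :=
  ∀ U, Un True m m' (A U) ∧ ∀ j, Bin m m' j (A (U - ee j)) (A U)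

open Classical in
/-- The substitution map. -/
noncomputable def Psi (m' d : V) (C : Cont) : Cont where
  b := d
  e := fun i j => if i = j then 0 else if cl (d i) ≠ 0 ∨ cl (d j) ≠ 0 then cl (d i) else C.e i j
  f := fun j => if axs j (ty d) then C.f j else
    if h : ∃ i, zoo j i (ty d) then cl (C.b h.choose) else 0
  rib := fun j => if axs j (ty d) then C.rib j else
    if lin j (ty d) then some (if d j = 0 then prd m' j C.b else C.b) else none

theorem ex_ne2 : ∀ i j : Fin 4, ∃ k, k ≠ i ∧ k ≠ j := by decide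
theorem ex_ne1 : ∀ i : Fin 4, ∃ k, k ≠ i := by decide
theorem succ_ne : ∀ i : Fin 4, i + 1 ≠ i := by decide

theorem zoo_uniq {j i i' : Fin 4} {t : Ty} (h : zoo j i t) (h' : zoo j i' t) : i = i' := by
  by_contra hne
  have h1 := h.2.2 i' (fun e => hne e.symm) h'.1
  rw [h'.2.1] at h1
  exact absurd h1 (by decide)

theorem zoo_not_axs {j i : Fin 4} {t : Ty} (h : zoo j i t) : ¬ axs j t := by
  intro ha
  obtain ⟨k, h1, h2⟩ := ex_ne2 i j
  have := h.2.2 k h1 h2
  rw [ha k h2] at this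
  exact absurd this (by decide)

theorem lin_not_axs {j j' : Fin 4} {t : Ty} (h : lin j t) : ¬ axs j' t := by
  intro ha
  obtain ⟨k, h1, h2⟩ := ex_ne2 j j'
  have := h k h1
  rw [ha k h2] at this
  exact absurd this (by decide)

theorem cen_lin {t : Ty} (h : cen t) (j : Fin 4) : lin j t := fun i _ => h i

theorem Psi_f_axs {m' d : V} {C : Cont} {j : Fin 4} (h : axs j (ty d)) :
    (Psi m' d C).f j = C.f j := by simp [Psi, h]

theorem Psi_f_zoo {m' d : V} {C : Cont} {j i : Fin 4} (h : zoo j i (ty d)) :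
    (Psi m' d C).f j = cl (C.b i) := by
  have h1 : ∃ i, zoo j i (ty d) := ⟨i, h⟩
  simp only [Psi, zoo_not_axs h, if_false, dif_pos h1]
  rw [zoo_uniq h1.choose_spec h]

theorem Psi_f_oth {m' d : V} {C : Cont} {j : Fin 4} (h : ¬ axs j (ty d))
    (h' : ∀ i, ¬ zoo j i (ty d)) : (Psi m' d C).f j = 0 := by
  have h1 : ¬ ∃ i, zoo j i (ty d) := fun ⟨i, hi⟩ => h' i hi
  simp only [Psi, h, if_false, dif_neg h1]

theorem Psi_r_axs {m' d : V} {C : Cont} {j : Fin 4} (h : axs j (ty d)) :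
    (Psi m' d C).rib j = C.rib j := by simp [Psi, h]

theorem Psi_r_lin {m' d : V} {C : Cont} {j : Fin 4} (h : lin j (ty d)) :
    (Psi m' d C).rib j = some (if d j = 0 then prd m' j C.b else C.b) := by
  simp [Psi, h, lin_not_axs h]

theorem Psi_r_oth {m' d : V} {C : Cont} {j : Fin 4} (h : ¬ axs j (ty d)) (h' : ¬ lin j (ty d)) :
    (Psi m' d C).rib j = none := by simp [Psi, h, h']

theorem Psi_e_nz {m' d : V} {C : Cont} {i j : Fin 4} (h : i ≠ j) (h' : d i ≠ 0 ∨ d j ≠ 0) :
    (Psi m' d C).e i j = cl (d i) := by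
  simp only [Psi, h, if_false, ne_eq, cl_eq_zero]
  rw [if_pos h']

theorem Psi_e_z {m' d : V} {C : Cont} {i j : Fin 4} (h : i ≠ j) (h1 : d i = 0) (h2 : d j = 0) :
    (Psi m' d C).e i j = C.e i j := by
  simp [Psi, h, cl_eq_zero, h1, h2]

theorem Psi_e_d {m' d : V} {C : Cont} (i : Fin 4) : (Psi m' d C).e i i = 0 := by simp [Psi]

@[simp] theorem Psi_b {m' d : V} {C : Cont} : (Psi m' d C).b = d := rfl

/-- The effective type is the type of the digit when the digit is not zero. -/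
theorem eff_of_e2 {c : Cont}
    (e2 : ∀ i j, i ≠ j → (cl (c.b i) ≠ 0 ∨ cl (c.b j) ≠ 0) → c.e i j = cl (c.b i))
    (h : ∃ k, c.b k ≠ 0) : eff c = ty c.b := by
  funext i
  obtain ⟨k, hk⟩ := h
  unfold eff ty
  by_cases hi : c.b i = 0
  · have hik : i ≠ k := fun e => hk (e ▸ hi)
    have := e2 i k hik (Or.inr (by simpa [cl_eq_zero] using hk))
    rw [if_neg, cl_eq_zero.2 hi]
    intro hh
    exact hh k hik.symm (by rw [this, cl_eq_zero.2 hi])
  · have h1 : cl (c.b i) ≠ 0 := by simpa [cl_eq_zero] using hi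
    rw [if_pos, e2 i _ (succ_ne i).symm (Or.inl h1)]
    intro j hj
    rw [e2 i j hj.symm (Or.inl h1)]
    exact h1

theorem Un.eff_eq {fl : Prop} {m m' : V} {c : Cont} (u : Un fl m m' c) (h : ∃ k, c.b k ≠ 0) :
    eff c = ty c.b := eff_of_e2 u.e2 h

theorem Psi_eff_nz {m' d : V} {C : Cont} (h : ∃ k, d k ≠ 0) : eff (Psi m' d C) = ty d := by
  apply eff_of_e2 (c := Psi m' d C) _ h
  intro i j hij hh
  exact Psi_e_nz hij (by simpa [cl_eq_zero] using hh)

theorem eff_congr {c c' : Cont} (h : ∀ i j, i ≠ j → c.e i j = c'.e i j) : eff c = eff c' := by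
  funext i
  unfold eff
  have h1 : (∀ j, j ≠ i → c.e i j ≠ 0) ↔ (∀ j, j ≠ i → c'.e i j ≠ 0) := by
    constructor
    · intro hh j hj; rw [← h i j hj.symm]; exact hh j hj
    · intro hh j hj; rw [h i j hj.symm]; exact hh j hj
  rw [h i (i + 1) (succ_ne i).symm]
  simp only [h1]

theorem Psi_eff_z {m' d : V} {C : Cont} (h : ∀ k, d k = 0) : eff (Psi m' d C) = eff C :=
  eff_congr (fun i j hij => Psi_e_z hij (h i) (h j))

theorem axs_of_z {d : V} (h : ∀ k, d k = 0) (j : Fin 4) : axs j (ty d) :=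
  fun i _ => cl_eq_zero.2 (h i)

theorem scl_prd {m' D : V} (hm : ∀ i, 2 ≤ m' i) (hD : rng m' D) (i : Fin 4) :
    scl m' i (prd m' i D) = cl (D i) := by
  have h1 := hm i
  have h2 := hD i
  unfold scl prd cl
  simp only [if_true]
  split_ifs <;> first | rfl | omega

theorem step_prd {m' D : V} (j : Fin 4) : step m' j (prd m' j D) D := by
  refine ⟨fun i hi => by simp [prd, hi], ?_⟩
  simp only [prd, if_true]
  split_ifs <;> omega

theorem eq_prd {m' E D : V} {j : Fin 4} (h : step m' j E D) (hE : rng m' E) (hD : rng m' D) :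
    E = prd m' j D := by
  funext i
  unfold prd
  by_cases hi : i = j
  · subst hi
    have h1 := h.2
    have h2 := hE i
    have h3 := hD i
    simp only [if_true]
    split_ifs <;> omega
  · simp [hi, h.1 i hi]

theorem rng_prd {m' D : V} (hm : ∀ i, 2 ≤ m' i) (hD : rng m' D) (j : Fin 4) :
    rng m' (prd m' j D) := by
  intro i
  have h1 := hm i
  have h2 := hD i
  unfold prd
  split_ifs with h3 h4
  · subst h3; omega
  · subst h3; omega
  · exact h2

/-- Unary rules pass to the substituted cell. -/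
theorem un_Psi {m m' d : V} {C : Cont} (hm : ∀ i, 2 ≤ m' i) (hd : rng m d)
    (u : Un True m' m' C) : Un True m m' (Psi m' d C) := by
  by_cases hz : ∀ k, d k = 0
  · have he : eff (Psi m' d C) = eff C := Psi_eff_z hz
    have ha := axs_of_z hz
    refine ⟨hd, Psi_e_d, ?_, ?_, ?_, ?_, ?_, ?_, ?_, ?_, ?_⟩
    · intro i j hij hh
      simp [cl_eq_zero, hz] at hh
    · intro i j h1 h2 h3
      rw [he] at h1 h2
      rw [Psi_f_axs (ha _), Psi_f_axs (ha _)] at h3
      rw [Psi_e_z h1.1 (hz _) (hz _), Psi_f_axs (ha _)]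
      exact u.e3 i j h1 h2 h3
    · intro j h1 h2
      rw [he] at h1 h2
      rw [Psi_f_axs (ha _)]
      exact u.f3 j h1 h2
    · intro j h1 h2
      rw [he] at h1 h2
      rw [Psi_r_axs (ha _)]
      exact u.r0 j h1 h2
    · intro j h1
      rw [he] at h1
      rw [Psi_r_axs (ha _)]
      exact u.r1 j h1
    · rw [he]; exact u.nz
    · intro j D h1
      rw [Psi_r_axs (ha _)] at h1
      exact u.rbd j D h1
    · intro h1
      rw [he] at h1
      obtain ⟨D, h2, h3⟩ := u.ce h1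
      exact ⟨D, h2, fun j => by rw [Psi_r_axs (ha _)]; exact h3 j⟩
    · intro i j E h0 h1 h2 h3
      rw [he] at h1 h2
      rw [Psi_r_axs (ha _)] at h3
      rw [Psi_f_axs (ha _)]
      exact u.f2 i j E h0 h1 h2 h3
  · have hnz : ∃ k, d k ≠ 0 := by simpa using hz
    have he : eff (Psi m' d C) = ty d := Psi_eff_nz hnz
    refine ⟨hd, Psi_e_d, ?_, ?_, ?_, ?_, ?_, ?_, ?_, ?_, ?_⟩
    · intro i j hij hh
      exact Psi_e_nz hij (by simpa [cl_eq_zero] using hh)
    · intro i j h1 h2 h3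
      rw [he] at h1 h2
      have h1' : zoo i j (ty d) := ⟨h1.1.symm, h2, fun k a b => h1.2.2 k b a⟩
      rw [Psi_f_zoo h1, Psi_f_zoo h1'] at h3
      rw [Psi_f_zoo h1, Psi_e_z h1.1 (cl_eq_zero.1 h1.2.1) (cl_eq_zero.1 h2)]
      exact u.e2 i j h1.1 h3
    · intro j h1 h2
      rw [he] at h1 h2
      exact Psi_f_oth h1 h2
    · intro j h1 h2
      rw [he] at h1 h2
      exact Psi_r_oth h1 h2
    · intro j h1
      rw [he] at h1
      rw [Psi_r_lin h1]
      simp
    · obtain ⟨k, hk⟩ := hnz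
      exact ⟨k, by rw [he]; simpa [ty, cl_eq_zero] using hk⟩
    · intro j D h1
      by_cases ha : axs j (ty d)
      · rw [Psi_r_axs ha] at h1
        exact u.rbd j D h1
      · by_cases hl : lin j (ty d)
        · rw [Psi_r_lin hl] at h1
          have h2 : rng m' D := by
            simp only [Option.some.injEq] at h1
            rw [← h1]
            split_ifs
            · exact rng_prd hm u.rb j
            · exact u.rb
          exact fun i => ⟨(h2 i).1, (h2 i).2.le⟩
        · rw [Psi_r_oth ha hl] at h1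
          simp at h1
    · intro h1
      rw [he] at h1
      refine ⟨C.b, u.rb, fun j => ?_⟩
      rw [Psi_r_lin (cen_lin h1 j), if_neg]
      have := cl_eq_one.1 (h1 j)
      omega
    · intro i j E h0 h1 h2 h3
      rw [he] at h1 h2
      have hl : lin i (ty d) := by
        intro k hk
        by_cases hkj : k = j
        · rw [hkj]; exact h2
        · exact h1.2.2 k hk hkj
      rw [Psi_r_lin hl, if_pos (cl_eq_zero.1 h1.2.1)] at h3
      simp only [Option.some.injEq] at h3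
      rw [Psi_f_zoo h1, ← h3, scl_prd hm u.rb]

theorem axs_congr {j : Fin 4} {d d' : V} (h : ∀ i, i ≠ j → d i = d' i) :
    axs j (ty d) ↔ axs j (ty d') := by
  constructor <;> intro hh i hi <;> have := hh i hi <;> unfold ty at * <;>
    [rw [← h i hi]; rw [h i hi]] <;> exact this

theorem lin_congr {j : Fin 4} {d d' : V} (h : ∀ i, i ≠ j → d i = d' i) :
    lin j (ty d) ↔ lin j (ty d') := by
  constructor <;> intro hh i hi <;> have := hh i hi <;> unfold ty at * <;>
    [rw [← h i hi]; rw [h i hi]] <;> exact this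

theorem zoo_congr {j i : Fin 4} {d d' : V} (h : ∀ i, i ≠ j → d i = d' i)
    (hh : zoo j i (ty d)) : zoo j i (ty d') := by
  refine ⟨hh.1, ?_, fun k h1 h2 => ?_⟩
  · have := hh.2.1; unfold ty at *; rw [← h i hh.1]; exact this
  · have := hh.2.2 k h1 h2; unfold ty at *; rw [← h k h2]; exact this

theorem Psi_f_congr {m' d d' : V} {C C' : Cont} {j : Fin 4} (h : ∀ i, i ≠ j → d i = d' i)
    (hf : C.f j = C'.f j) (hb : ∀ i, i ≠ j → cl (C.b i) = cl (C'.b i)) :
    (Psi m' d C).f j = (Psi m' d' C').f j := by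
  by_cases ha : axs j (ty d)
  · rw [Psi_f_axs ha, Psi_f_axs ((axs_congr h).1 ha), hf]
  · by_cases hz : ∃ i, zoo j i (ty d)
    · obtain ⟨i, hi⟩ := hz
      rw [Psi_f_zoo hi, Psi_f_zoo (zoo_congr h hi), hb i hi.1]
    · rw [Psi_f_oth ha (fun i hi => hz ⟨i, hi⟩), Psi_f_oth (fun hh => ha ((axs_congr h).2 hh))
        (fun i hi => hz ⟨i, zoo_congr (fun k hk => (h k hk).symm) hi⟩)]

theorem Psi_e_congr {m' d d' : V} {C C' : Cont} {i k : Fin 4} (h1 : cl (d i) = cl (d' i))
    (h2 : cl (d k) = cl (d' k)) (he : C.e i k = C'.e i k) :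
    (Psi m' d C).e i k = (Psi m' d' C').e i k := by
  simp only [Psi, h1, h2, he]

/-- Binary rules inside a block. -/
theorem bin_Psi_in {m m' d d' : V} {C : Cont} {j : Fin 4} (h0 : 0 ≤ d' j)
    (h1 : d' j + 1 = d j) (h : ∀ i, i ≠ j → d i = d' i) :
    Bin m m' j (Psi m' d' C) (Psi m' d C) := by
  have he : eff (Psi m' d C) = ty d := Psi_eff_nz ⟨j, by omega⟩
  refine ⟨⟨h, Or.inl h1⟩, ?_, Psi_f_congr h rfl (fun _ _ => rfl), ?_, ?_⟩
  · intro i k hi hk
    exact Psi_e_congr (by rw [h i hi]) (by rw [h k hk]) rfl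
  · intro hc
    rw [he] at hc
    by_cases ha : axs j (ty d)
    · rw [Psi_r_axs ha, Psi_r_axs ((axs_congr h).1 ha)]
    · by_cases hl : lin j (ty d)
      · have h2 : d j ≠ 1 := by
          intro h2
          apply hc
          intro i
          by_cases hi : i = j
          · rw [hi]; exact cl_eq_one.2 h2
          · exact hl i hi
        rw [Psi_r_lin hl, Psi_r_lin ((lin_congr h).1 hl), if_neg (by omega), if_neg (by omega)]
      · rw [Psi_r_oth ha hl, Psi_r_oth (fun hh => ha ((axs_congr h).2 hh))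
          (fun hh => hl ((lin_congr h).2 hh))]
  · intro hc
    rw [he] at hc
    have h2 : d j = 1 := cl_eq_one.1 (hc j)
    have hl := cen_lin hc j
    refine ⟨prd m' j C.b, C.b, ?_, ?_, step_prd j⟩
    · rw [Psi_r_lin ((lin_congr h).1 hl), if_pos (by omega)]
    · rw [Psi_r_lin hl, if_neg (by omega)]

/-- Binary rules across a block boundary. -/
theorem bin_Psi_out {m m' d d' : V} {N C : Cont} {j : Fin 4} (hm : 2 ≤ m j) (h0 : d j = 0)
    (h1 : d' j = m j - 1) (h : ∀ i, i ≠ j → d i = d' i) (hN : rng m' N.b) (hC : rng m' C.b)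
    (B : Bin m' m' j N C) : Bin m m' j (Psi m' d' N) (Psi m' d C) := by
  refine ⟨⟨h, Or.inr ⟨h0, by simp [h1]⟩⟩, ?_,
    Psi_f_congr h B.sf (fun i hi => by rw [B.sb.1 i hi]), ?_, ?_⟩
  · intro i k hi hk
    exact Psi_e_congr (by rw [h i hi]) (by rw [h k hk]) (B.se i k hi hk)
  · intro hc
    by_cases ha : axs j (ty d)
    · have hz : ∀ k, d k = 0 := by
        intro k
        by_cases hk : k = j
        · rw [hk]; exact h0
        · exact cl_eq_zero.1 (ha k hk)
      rw [Psi_eff_z hz] at hc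
      rw [Psi_r_axs ha, Psi_r_axs ((axs_congr h).1 ha)]
      exact B.sr hc
    · by_cases hl : lin j (ty d)
      · rw [Psi_r_lin hl, Psi_r_lin ((lin_congr h).1 hl), if_pos h0, if_neg (by omega),
          ← eq_prd B.sb hN hC]
      · rw [Psi_r_oth ha hl, Psi_r_oth (fun hh => ha ((axs_congr h).2 hh))
          (fun hh => hl ((lin_congr h).2 hh))]
  · intro hc
    by_cases hz : ∀ k, d k = 0
    · have ha := axs_of_z hz j
      rw [Psi_eff_z hz] at hc
      rw [Psi_r_axs ha, Psi_r_axs ((axs_congr h).1 ha)]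
      exact B.sc hc
    · rw [Psi_eff_nz (by simpa using hz)] at hc
      have := cl_eq_one.1 (hc j)
      omega

end Pool.Agent.Lib.MP_4b554f_an
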