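import Pool.Agent.Lib.MP_4b554f_an.Abs

/-!
Every valid configuration is the substitution image of a valid configuration.
-/

set_option autoImplicit false
set_option linter.unusedSimpArgs false
set_option linter.unnecessarySeqFocus false
set_option linter.unusedVariables false

namespace Pool.Agent.Lib.MP_4b554f_an

theorem Cont.ext4 {c c' : Cont} (h1 : c.b = c'.b) (h2 : c.e = c'.e) (h3 : c.f = c'.f)
    (h4 : c.rib = c'.rib) : c = c' := by
  cases c; cases c'; simp_all

theorem const1 {α : Type*} (g : V → α) (k : Fin 4) (h : ∀ U, g (U - ee k) = g U) (U : V)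
    (a : ℤ) : g (U + a • ee k) = g U := by
  induction a using Int.induction_on with
  | zero => simp
  | succ n ih =>
    rw [← ih, ← h (U + ((n : ℤ) + 1) • ee k)]
    congr 1
    rw [add_smul]; simp; abel
  | pred n ih =>
    rw [← ih, ← h (U + (-(n : ℤ)) • ee k)]
    congr 1
    rw [sub_smul]; simp; abel

theorem decomp (U U' : V) : U' = U + (U' 0 - U 0) • ee 0 + (U' 1 - U 1) • ee 1 +
    (U' 2 - U 2) • ee 2 + (U' 3 - U 3) • ee 3 := by
  funext i
  fin_cases i <;> simp [ee]

theorem const_of {α : Type*} (g : V → α) (p : Fin 4 → Prop)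
    (h : ∀ k, p k → ∀ U, g (U - ee k) = g U) (U U' : V) (hU : ∀ i, ¬ p i → U i = U' i) :
    g U = g U' := by
  have key : ∀ k W, g (W + (U' k - U k) • ee k) = g W := by
    intro k W
    by_cases hk : p k
    · exact const1 g k (h k hk) W _
    · rw [hU k hk]; simp
  rw [decomp U U', key, key, key, key]

theorem eq_emod {x y m : ℤ} (h0 : 0 ≤ x) (h1 : x < m) (h : m ∣ x - y) : x = y % m := by
  have : x % m = y % m :=
    Int.emod_eq_emod_iff_emod_sub_eq_zero.2 (Int.emod_eq_zero_of_dvd h)
  rw [← this, Int.emod_eq_of_lt h0 h1]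

def idx (m β U : V) : V := fun j => (U j + β j) / m j
def dig (m β U : V) : V := fun j => (U j + β j) % m j
def PP (m β W : V) : V := fun j => m j * W j - β j

theorem PP_idx (m β U : V) : PP m β (idx m β U) + dig m β U = U := by
  funext j
  simp only [PP, idx, dig, Pi.add_apply]
  have := Int.mul_ediv_add_emod (U j + β j) (m j)
  linarith

theorem rng_dig {m : V} (hm : ∀ i, 2 ≤ m i) (β U : V) : rng m (dig m β U) := fun i =>
  ⟨Int.emod_nonneg _ (by have := hm i; omega), Int.emod_lt_of_pos _ (by have := hm i; omega)⟩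

theorem dig_PP {m d : V} (β W : V) (hd : rng m d) : dig m β (PP m β W + d) = d := by
  funext j
  simp only [PP, dig, Pi.add_apply]
  have h := hd j
  symm
  apply eq_emod h.1 h.2
  exact ⟨-W j, by ring⟩

theorem exists_beta {m m' : V} {A : V → Cont} (hA : Valid m m' A) :
    ∃ β : V, ∀ U, (A U).b = dig m β U := by
  refine ⟨(A 0).b, fun U => ?_⟩
  funext j
  have hc : ∀ U U' : V, U j = U' j → (A U).b j = (A U').b j := by
    intro U U' h
    apply const_of (fun U => (A U).b j) (fun k => k ≠ j)
    · intro k hk U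
      exact (((hA U).2 k).sb.1 j hk.symm).symm
    · intro i hi
      have : i = j := by simpa using hi
      rw [this, h]
  have hs : ∀ U : V, m j ∣ (A U).b j - (A (U - ee j)).b j - 1 := by
    intro U
    have h1 := ((hA U).2 j).sb.2
    have h2 := (hA (U - ee j)).1.rb j
    rcases h1 with h1 | h1
    · exact ⟨0, by omega⟩
    · exact ⟨-1, by omega⟩
  have key : ∀ a : ℤ, m j ∣ (A (a • ee j)).b j - (a + (A 0).b j) := by
    intro a
    induction a using Int.induction_on with
    | zero => simp
    | succ n ih =>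
      have h1 := hs (((n : ℤ) + 1) • ee j)
      rw [show ((n : ℤ) + 1) • ee j - ee j = (n : ℤ) • ee j by rw [add_smul]; simp] at h1
      have := dvd_add h1 ih
      exact dvd_trans (dvd_refl _) (by rwa [show ∀ a b c d : ℤ, a - b - 1 + (b - (c + d)) =
        a - (c + 1 + d) from fun a b c d => by ring] at this)
    | pred n ih =>
      have h1 := hs ((-(n : ℤ)) • ee j)
      rw [show (-(n : ℤ)) • ee j - ee j = (-(n : ℤ) - 1) • ee j by rw [sub_smul]; simp] at h1
      have := dvd_sub ih h1
      exact dvd_trans (dvd_refl _) (by rwa [show ∀ a b c d : ℤ, a - (c + d) - (a - b - 1) =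
        b - (c - 1 + d) from fun a b c d => by ring] at this)
  rw [hc U (U j • ee j) (by simp)]
  have h2 := (hA (U j • ee j)).1.rb j
  exact eq_emod h2.1 h2.2 (key _)

theorem pass {m m' : V} {A : V → Cont} (hA : Valid m m' A) (j : Fin 4) (U : V) (a : ℕ)
    (h : ∀ i : ℕ, 1 ≤ i → i ≤ a → ¬ cen (eff (A (U + (i : ℤ) • ee j)))) :
    (A (U + (a : ℤ) • ee j)).rib j = (A U).rib j := by
  induction a with
  | zero => simp
  | succ n ih =>
    rw [← ih (fun i h1 h2 => h i h1 (by omega)),
      ((hA _).2 j).sr (h (n + 1) (by omega) le_rfl)]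
    congr 2
    push_cast
    rw [add_smul]; simp; abel

/-- The vector with entry `a` at `j` and `c` elsewhere. -/
def upd (j : Fin 4) (a c : ℤ) : V := fun i => if i = j then a else c

theorem desub {m m' : V} (hm : ∀ i, 2 ≤ m i) (hm' : ∀ i, 2 ≤ m' i) {A : V → Cont}
    (hA : Valid m m' A) : ∃ (β : V) (A' : V → Cont), Valid m' m' A' ∧
      ∀ U, A U = Psi m' (dig m β U) (A' (idx m β U)) := by
  obtain ⟨β, hβ⟩ := exists_beta hA
  have hb : ∀ W d, rng m d → (A (PP m β W + d)).b = d := fun W d hd => by
    rw [hβ, dig_PP β W hd]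
  have he : ∀ W d, rng m d → (∃ k, d k ≠ 0) → eff (A (PP m β W + d)) = ty d := by
    intro W d hd hk
    rw [(hA _).1.eff_eq (by rw [hb W d hd]; exact hk), hb W d hd]
  have hr : ∀ j a c, 0 ≤ a → a < m j → (c = 0 ∨ c = 1) → rng m (upd j a c) := by
    intro j a c h1 h2 h3 i
    have := hm i
    unfold upd
    split_ifs with h
    · subst h; omega
    · omega
  have hone : ∀ W, cen (eff (A (PP m β W + upd 0 1 1))) := by
    intro W i
    rw [he W _ (hr 0 1 1 (by omega) (by have := hm 0; omega) (by simp)) ⟨0, by simp [upd]⟩]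
    simp [ty, upd, cl]
  have hone' : ∀ j, upd 0 1 1 = upd j 1 1 := fun j => by funext i; simp [upd]
  choose cd hcd1 hcd2 using fun W => (hA _).1.ce (hone W)
  have hPP : ∀ W j c, PP m β W + upd j 0 c - ee j = PP m β (W - ee j) + upd j (m j - 1) c := by
    intro W j c
    funext i
    by_cases hi : i = j
    · subst hi; simp [PP, upd]; ring
    · simp [PP, upd, hi, ee_ne hi]
  have hl1 : ∀ W j a, 1 ≤ a → a < m j → (A (PP m β W + upd j a 1)).rib j = some (cd W) := by
    intro W j a h1 h2
    rw [← hcd2 W j, hone' j, ← pass hA j (PP m β W + upd j 1 1) (a - 1).toNat]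
    · congr 2
      funext i
      by_cases hi : i = j
      · subst hi; simp [upd]; omega
      · simp [upd, hi, ee_ne hi]
    · intro i h3 h4 hc
      have e1 : PP m β W + upd j 1 1 + (i : ℤ) • ee j = PP m β W + upd j (1 + i) 1 := by
        funext k
        by_cases hi : k = j
        · subst hi; simp [upd]; ring
        · simp [upd, hi, ee_ne hi]
      rw [e1, he W _ (hr j _ 1 (by omega) (by omega) (by simp)) ⟨j, by simp [upd]; omega⟩] at hc
      have := cl_eq_one.1 (hc j)
      simp [upd] at this
      omega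
  have hl0 : ∀ W j, (A (PP m β W + upd j 0 1)).rib j = some (cd (W - ee j)) := by
    intro W j
    have := hm j
    rw [((hA _).2 j).sr, hPP, hl1 _ _ _ (by omega) (by omega)]
    obtain ⟨k, hk⟩ := ex_ne1 j
    rw [he W _ (hr j _ 1 (by omega) (by omega) (by simp)) ⟨k, by simp [upd, hk]⟩]
    intro hc
    have := cl_eq_one.1 (hc j)
    simp [upd] at this
  have hst : ∀ W j, step m' j (cd (W - ee j)) (cd W) := by
    intro W j
    obtain ⟨E, D, h1, h2, h3⟩ := ((hA _).2 j).sc (hone W)
    rw [hcd2] at h2
    rw [hone' j, show PP m β W + upd j 1 1 - ee j = PP m β W + upd j 0 1 by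
      funext i
      by_cases hi : i = j
      · subst hi; simp [upd]
      · simp [upd, hi, ee_ne hi], hl0] at h1
    simp only [Option.some.injEq] at h1 h2
    rw [h1, h2]; exact h3
  have hax : ∀ W j a, 0 ≤ a → a < m j → (A (PP m β W + upd j a 0)).rib j = (A (PP m β W)).rib j := by
    intro W j a h1 h2
    rw [← pass hA j (PP m β W) a.toNat]
    · congr 2
      funext i
      by_cases hi : i = j
      · subst hi; simp [upd]; omega
      · simp [upd, hi, ee_ne hi]
    · intro i h3 h4 hc
      have e1 : PP m β W + (i : ℤ) • ee j = PP m β W + upd j i 0 := by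
        funext k
        by_cases hi : k = j
        · subst hi; simp [upd]
        · simp [upd, hi, ee_ne hi]
      rw [e1, he W _ (hr j _ 0 (by omega) (by omega) (by simp)) ⟨j, by simp [upd]; omega⟩] at hc
      obtain ⟨k, hk⟩ := ex_ne1 j
      have := cl_eq_one.1 (hc k)
      simp [upd, hk] at this
  have hec : ∀ i k (U U' : V), U i = U' i → U k = U' k → (A U).e i k = (A U').e i k := by
    intro i k U U' h1 h2
    apply const_of (fun U => (A U).e i k) (fun l => i ≠ l ∧ k ≠ l)
    · intro l hl U
      exact (((hA U).2 l).se i k hl.1 hl.2).symm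
    · intro l hl
      by_cases h : i = l
      · rw [← h, h1]
      · have : k = l := by simpa [h] using hl
        rw [← this, h2]
  have hfc : ∀ j (U U' : V), (∀ i, i ≠ j → U i = U' i) → (A U).f j = (A U').f j := by
    intro j U U' h1
    apply const_of (fun U => (A U).f j) (fun l => l = j)
    · intro l hl U
      subst hl
      exact (((hA U).2 l).sf).symm
    · exact h1
  let A' : V → Cont := fun W => { A (PP m β W) with b := cd W }
  have main : ∀ W d, rng m d → A (PP m β W + d) = Psi m' d (A' W) := by
    intro W d hd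
    apply Cont.ext4 (hb W d hd)
    · funext i k
      by_cases hik : i = k
      · subst hik; rw [Psi_e_d, (hA _).1.ed]
      · by_cases hz : d i ≠ 0 ∨ d k ≠ 0
        · rw [Psi_e_nz hik hz, (hA _).1.e2 i k hik (by rw [hb W d hd]; simpa [cl_eq_zero] using hz),
            hb W d hd]
        · have h1 : d i = 0 := by tauto
          have h2 : d k = 0 := by tauto
          rw [Psi_e_z hik h1 h2]
          exact hec i k _ _ (by simp [h1]) (by simp [h2])
    · funext j
      by_cases ha : axs j (ty d)
      · rw [Psi_f_axs ha]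
        exact hfc j _ _ (fun i hi => by simp [cl_eq_zero.1 (ha i hi)])
      · by_cases hz : ∃ i, zoo j i (ty d)
        · obtain ⟨i, hi⟩ := hz
          rw [Psi_f_zoo hi, hfc j _ (PP m β W + upd i 0 1)]
          · have h2 := hm i
            have h1 := he W _ (hr i 0 1 (by omega) (by omega) (by simp)) ⟨j, by simp [upd, hi.1.symm]⟩
            rw [(hA _).1.f2 i j _ (Or.inr trivial) _ _ (hl0 W i),
              eq_prd (hst W i) (hcd1 _) (hcd1 _), scl_prd hm' (hcd1 _)]
            · rw [h1]
              exact ⟨hi.1, by simp [ty, upd, cl], fun k h3 h4 => by simp [ty, upd, cl, h3]⟩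
            · rw [h1]; simp [ty, upd, cl, hi.1.symm]
          · intro k hk
            by_cases hki : k = i
            · subst hki; simp [upd, cl_eq_zero.1 hi.2.1]
            · simp [upd, hki, cl_eq_one.1 (hi.2.2 k hki hk)]
        · have hnz : ∃ k, d k ≠ 0 := by
            by_contra hh
            exact ha (axs_of_z (by simpa using hh) j)
          rw [Psi_f_oth ha (fun i hi => hz ⟨i, hi⟩)]
          apply (hA _).1.f3
          · rw [he W d hd hnz]; exact ha
          · rw [he W d hd hnz]; exact fun i hi => hz ⟨i, hi⟩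
    · funext j
      have h0 := hd j
      by_cases ha : axs j (ty d)
      · rw [Psi_r_axs ha, show d = upd j (d j) 0 by
          funext i
          by_cases hi : i = j
          · simp [upd, hi]
          · simp [upd, hi, cl_eq_zero.1 (ha i hi)]]
        exact hax W j _ h0.1 h0.2
      · by_cases hl : lin j (ty d)
        · have e1 : d = upd j (d j) 1 := by
            funext i
            by_cases hi : i = j
            · simp [upd, hi]
            · simp [upd, hi, cl_eq_one.1 (hl i hi)]
          rw [Psi_r_lin hl]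
          by_cases h1 : d j = 0
          · rw [if_pos h1, e1, h1, hl0, eq_prd (hst W j) (hcd1 _) (hcd1 _)]
          · rw [if_neg h1, e1, hl1 _ _ _ (by omega) h0.2]
        · have hnz : ∃ k, d k ≠ 0 := by
            by_contra hh
            exact ha (axs_of_z (by simpa using hh) j)
          rw [Psi_r_oth ha hl]
          apply (hA _).1.r0
          · rw [he W d hd hnz]; exact ha
          · rw [he W d hd hnz]; exact hl
  refine ⟨β, A', fun W => ⟨?_, fun j => ?_⟩, fun U => ?_⟩
  · have u := (hA (PP m β W)).1
    refine ⟨hcd1 W, u.ed, ?_, u.e3, u.f3, u.r0, u.r1, u.nz, u.rbd, u.ce, u.f2⟩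
    intro i j hij hh
    let d : V := fun k => if k = i ∨ k = j then 0 else 1
    have hd : rng m d := by
      intro k
      have := hm k
      simp only [d]
      split_ifs <;> omega
    obtain ⟨k, hk1, hk2⟩ := ex_ne2 i j
    have h1 := he W d hd ⟨k, by simp [d, hk1, hk2]⟩
    have z1 : zoo j i (ty d) := ⟨hij, by simp [ty, d, cl], fun l a b => by simp [ty, d, cl, a, b]⟩
    have z2 : zoo i j (ty d) :=
      ⟨hij.symm, by simp [ty, d, cl], fun l a b => by simp [ty, d, cl, a, b]⟩
    have h2 := (hA (PP m β W + d)).1.e3 i j (by rw [h1]; exact z1) (by rw [h1]; exact z2.2.1)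
    rw [main W d hd, Psi_f_zoo z1, Psi_f_zoo z2,
      Psi_e_z hij (by simp [d]) (by simp [d])] at h2
    exact h2 hh
  · have B := (hA (PP m β W)).2 j
    have h0 := hm j
    have e1 : PP m β W - ee j = PP m β (W - ee j) + upd j (m j - 1) 0 := by
      rw [← hPP]; congr 1; funext i; simp [upd]
    have ha : axs j (ty (upd j (m j - 1) 0)) := fun i hi => by simp [ty, upd, hi, cl]
    rw [e1, main _ _ (hr j _ 0 (by omega) (by omega) (by simp))] at B
    refine ⟨hst W j, ?_, ?_, ?_, ?_⟩
    · intro i k hi hk
      by_cases hik : i = k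
      · subst hik
        exact ((hA _).1.ed i).trans ((hA _).1.ed i).symm
      · have := B.se i k hi hk
        rw [Psi_e_z hik (by simp [upd, hi]) (by simp [upd, hk])] at this
        exact this
    · have := B.sf
      rw [Psi_f_axs ha] at this
      exact this
    · have := B.sr
      rw [Psi_r_axs ha] at this
      exact this
    · have := B.sc
      rw [Psi_r_axs ha] at this
      exact this
  · rw [← main _ _ (rng_dig hm β U), PP_idx]

theorem sub_ee_in {m β U : V} {j : Fin 4} (hm : 2 ≤ m j) (h : dig m β U j ≠ 0) :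
    idx m β (U - ee j) = idx m β U ∧ dig m β (U - ee j) j + 1 = dig m β U j := by
  have h1 := Int.mul_ediv_add_emod (U j + β j) (m j)
  have h2 := Int.emod_nonneg (U j + β j) (show m j ≠ 0 by omega)
  have h3 := Int.emod_lt_of_pos (U j + β j) (show 0 < m j by omega)
  simp only [dig] at h
  have h4 := (Int.ediv_emod_unique (a := U j - 1 + β j) (b := m j) (r := (U j + β j) % m j - 1)
    (q := (U j + β j) / m j) (by omega)).2 ⟨by linarith, by omega, by omega⟩
  constructor
  · funext i
    by_cases hi : i = j
    · subst hi; simp [idx, h4.1]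
    · simp [idx, ee_ne hi]
  · simp [dig, h4.2]

theorem sub_ee_out {m β U : V} {j : Fin 4} (hm : 2 ≤ m j) (h : dig m β U j = 0) :
    idx m β (U - ee j) = idx m β U - ee j ∧ dig m β (U - ee j) j = m j - 1 := by
  have h1 := Int.mul_ediv_add_emod (U j + β j) (m j)
  simp only [dig] at h
  have h4 := (Int.ediv_emod_unique (a := U j - 1 + β j) (b := m j) (r := m j - 1)
    (q := (U j + β j) / m j - 1) (by omega)).2 ⟨by linarith, by omega, by omega⟩
  constructor
  · funext i
    by_cases hi : i = j
    · subst hi; simp [idx, h4.1]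
    · simp [idx, ee_ne hi]
  · simp [dig, h4.2]

theorem dig_sub_ee {m β U : V} {j i : Fin 4} (h : i ≠ j) :
    dig m β U i = dig m β (U - ee j) i := by simp [dig, ee_ne h]

theorem bin_Psi {m m' β U : V} {A : V → Cont} {j : Fin 4} (hm : ∀ i, 2 ≤ m i)
    (hA : ∀ W, rng m' (A W).b)
    (B : dig m β U j = 0 → Bin m' m' j (A (idx m β U - ee j)) (A (idx m β U))) :
    Bin m m' j (Psi m' (dig m β (U - ee j)) (A (idx m β (U - ee j))))
      (Psi m' (dig m β U) (A (idx m β U))) := by
  by_cases h : dig m β U j = 0
  · obtain ⟨h1, h2⟩ := sub_ee_out (hm j) h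
    rw [h1]
    exact bin_Psi_out (hm j) h h2 (fun i hi => dig_sub_ee hi) (hA _) (hA _) (B h)
  · obtain ⟨h1, h2⟩ := sub_ee_in (hm j) h
    rw [h1]
    exact bin_Psi_in (rng_dig hm β _ j).1 h2 (fun i hi => dig_sub_ee hi)

theorem valid_Psi {m m' : V} (hm : ∀ i, 2 ≤ m i) (hm' : ∀ i, 2 ≤ m' i) (β : V) {A : V → Cont}
    (hA : Valid m' m' A) : Valid m m' (fun U => Psi m' (dig m β U) (A (idx m β U))) :=
  fun U => ⟨un_Psi hm' (rng_dig hm β U) (hA _).1,
    fun j => bin_Psi hm (fun W => (hA W).1.rb) (fun _ => (hA _).2 j)⟩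

end Pool.Agent.Lib.MP_4b554f_an
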