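import Pool.Agent.Lib.MP_4b554f_an.Step

/-!
Iterating the step gives cubically many rows in a planar ball.
-/

set_option autoImplicit false
set_option linter.unusedSimpArgs false
set_option linter.unnecessarySeqFocus false
set_option linter.unusedVariables false

namespace Pool.Agent.Lib.MP_4b554f_an

open Filter

noncomputable def nb (N : ℕ) (p : ℤ × ℤ) : Finset (ℤ × ℤ) :=
  Finset.Icc (p.1 - N) (p.1 + N) ×ˢ Finset.Icc (p.2 - N) (p.2 + N)

theorem mem_nb {N : ℕ} {p q : ℤ × ℤ} :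
    q ∈ nb N p ↔ (p.1 - N ≤ q.1 ∧ q.1 ≤ p.1 + N) ∧ (p.2 - N ≤ q.2 ∧ q.2 ≤ p.2 + N) := by
  simp [nb, Finset.mem_product, Finset.mem_Icc]

theorem card_nb (N : ℕ) (p : ℤ × ℤ) : (nb N p).card = (2 * N + 1) * (2 * N + 1) := by
  simp only [nb, Finset.card_product, Int.card_Icc]
  congr 1 <;> omega

theorem ev_pow (a : ℕ) : ∀ᶠ K in atTop, a < 2 ^ (K + 1) := by
  filter_upwards [eventually_ge_atTop a] with K hK
  have := Nat.lt_two_pow_self (n := K + 1)
  omega

theorem NN_ge {m m' H : V} (hm : ∀ i, 2 ≤ m i) (hm' : ∀ i, 2 ≤ m' i) (hH : ∀ i, 0 < H i)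
    (k : ℕ) (i : Fin 4) : 2 ^ k ≤ NN m m' H k i := by
  induction k with
  | zero => have := hH i; simp only [NN, pow_zero]; omega
  | succ k ih =>
    have h1 : 2 ≤ mk m m' k i := by unfold mk; split_ifs; exacts [hm i, hm' i]
    rw [NN_succ, pow_succ]
    exact mul_le_mul ih h1 (by norm_num) (le_trans (by positivity) ih)

theorem iter_contra {C : ℤ × ℤ → Conf} {SB S : ℤ × ℤ → ℕ → V} {h u : ℤ × ℤ → ℤ} {e : ℤ × ℤ → ℕ}
    {l : ℕ} (hl : l.Prime) (hl11 : 11 < l) (hl2 : (l : ℤ) % 2002 = 1)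
    (hR : ∀ q, RowOK l (C q) (SB q) (S q) (h q) (u q) (e q)) (h0 : h 0 = l) {N : ℕ} (hN : l ≤ N)
    (nocheat : ∀ (p : ℤ × ℤ) (t Q : ℤ) (g : ℤ × ℤ → ℤ → Sy), (∀ q ∈ nb N p, ∀ n : ℤ, |n| ≤ N →
      Thin l 10 (fun j => (C q).row (t + n + j * Q) = g q n)) → ¬ Bad l (g p)) : False := by
  classical
  obtain ⟨m, hm⟩ : ∃ m, m = (15 * l * N) ^ 2 + 1 := ⟨_, rfl⟩
  obtain ⟨k, hk⟩ : ∃ k, k = 7 * l * m := ⟨_, rfl⟩
  obtain ⟨Hm, hHm⟩ : ∃ Hm : ℕ, ∀ q ∈ nb ((k + 1) * N) 0, h q ≤ Hm :=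
    ⟨(nb ((k + 1) * N) 0).sup (fun q => (h q).toNat), fun q hq => by
      have := Finset.le_sup (f := fun q => (h q).toNat) hq
      omega⟩
  have c7 : ∀ q k k', k ≤ k' → (7 : ℤ) ^ (k + 1) ∣ S q k' 1 - S q k 1 := by
    intro q k k' hkk
    have := cmp_dvd (hR q).cmp 1 hkk
    rw [NM_ne0 _ _ (by decide)] at this
    exact (Dvd.intro_left _ rfl).trans this
  have E1 : ∀ᶠ K in atTop, ∀ q ∈ nb ((k + 1) * N) 0, e q ≤ K + 1 := by
    rw [eventually_all_finset]
    intro q _
    filter_upwards [eventually_ge_atTop (e q)] with K hK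
    omega
  have E3 : ∀ᶠ K in atTop, ∀ p ∈ nb ((k + 1) * N) 0, ∀ q ∈ nb ((k + 1) * N) 0,
      ∀ c ∈ Finset.Icc (-((N : ℤ) + 5 * l)) (N + 5 * l), ∀ k', K + 1 < e q * (k' + 1) →
      ¬ (7 : ℤ) ^ (k' + 1) ∣ S q k' 1 - S p k' 1 + c - 3 * h q - h q * 7 ^ k' := by
    simp only [eventually_all_finset]
    intro p _ q _ c _
    obtain ⟨k0, hk0⟩ := val_ev (fun k' => S q k' 1 - S p k' 1 + c - 3 * h q) (h := h q)
      (by have := (hR q).md; omega) (fun a b hab =>
        dvd_trans (dvd_sub (c7 q a b hab) (c7 p a b hab)) (dvd_of_eq (by ring)))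
    filter_upwards [eventually_ge_atTop (e q * k0)] with K hK k' hk'
    apply hk0
    by_contra hlt
    have : e q * (k' + 1) ≤ e q * k0 := Nat.mul_le_mul_left _ (by omega)
    omega
  obtain ⟨K, K1, K2, K3, K4⟩ := (E1.and ((ev_pow ((2 * N + 1) * (2 * N + 1) * (2 * N + 1) * Hm)).and
    (E3.and (ev_pow (2 * (k * (N + 5 * l))))))).exists
  have steer : ∀ T : V, (∀ j, 0 ≤ T j ∧ T j ≤ k) → ∀ s : ℕ, s ≤ k → ∃ q ∈ nb (s * N) 0, h q = l ∧
      ∃ G : V, (∀ j, NN (mm 2) (mm l) (HH l) (K + 1) j ∣ S q (K + 1) j - S 0 (K + 1) j - G j) ∧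
      (∀ j, |G j| ≤ s * (N + 5 * l)) ∧
      ∀ j, j ≠ 0 → |G j - G 0 - T j| ≤ max (3 * l : ℤ) (k - s) := by
    intro T hT s
    induction s with
    | zero =>
      intro _
      refine ⟨0, by simp [mem_nb], h0, 0, by simp, by simp, fun j _ => ?_⟩
      have := hT j
      simp only [Pi.zero_apply, sub_zero, zero_sub, abs_neg, Nat.cast_zero]
      rw [abs_of_nonneg this.1]
      exact le_max_of_le_right this.2
    | succ s ih =>
      intro hs
      obtain ⟨p, a1, a2, G, a3, a4, a5⟩ := ih (by omega)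
      have b0 : s * N + N ≤ (k + 1) * N := by nlinarith
      have b1 : ∀ q ∈ nb N p, q ∈ nb ((s + 1) * N) 0 := by
        intro q hq
        rw [mem_nb] at hq a1 ⊢
        simp only [Prod.fst_zero, Prod.snd_zero, add_mul, one_mul] at hq a1 ⊢
        omega
      have b2 : ∀ q ∈ nb ((s + 1) * N) 0, q ∈ nb ((k + 1) * N) 0 := by
        intro q hq
        rw [mem_nb] at hq ⊢
        simp only [Prod.fst_zero, Prod.snd_zero, add_mul, one_mul] at hq b0 ⊢
        omega
      have b3 : p ∈ nb N p := by rw [mem_nb]; omega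
      obtain ⟨q, d1, d2, G', d3, d4, d5⟩ := step_lemma hl hl11 hl2 hR (nb N p) b3 a2 hN
        (fun q hq => K1 q (b2 q (b1 q hq))) (fun q hq => hHm q (b2 q (b1 q hq)))
        (by rw [card_nb]; exact K2)
        (fun q hq _ c hc => K3 p (b2 p (b1 p b3)) q (b2 q (b1 q hq)) c
          (Finset.mem_Icc.2 (abs_le.1 hc))) (nocheat p)
        (fun j => if j = 0 then 0 else if G j - G 0 ≤ T j then 0 else 4) (by simp)
        (fun j => by split_ifs <;> omega)
      refine ⟨q, b1 q d1, d2, G + G', fun j => ?_, fun j => ?_, fun j hj => ?_⟩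
      · exact dvd_trans (dvd_add (d3 j) (a3 j)) (dvd_of_eq (by simp only [Pi.add_apply]; ring))
      · have := abs_add_le (G j) (G' j)
        have := a4 j
        have := d4 j
        simp only [Pi.add_apply]
        push_cast
        linarith
      · have f1 := a5 j hj
        have f2 := d5 j hj
        simp only [if_neg hj] at f2
        rw [abs_le] at f1 ⊢
        simp only [Pi.add_apply]
        push_cast
        split_ifs at f2 <;> omega
  have fin : ∀ a : Fin 3 → Fin m, ∃ q ∈ nb (k * N) 0,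
      ∃ G : V, (∀ j, NN (mm 2) (mm l) (HH l) (K + 1) j ∣ S q (K + 1) j - S 0 (K + 1) j - G j) ∧
      (∀ j, |G j| ≤ k * (N + 5 * l)) ∧
      ∀ i : Fin 3, |G i.succ - G 0 - 7 * l * (a i : ℕ)| ≤ 3 * l := by
    intro a
    obtain ⟨q, a1, _, G, a3, a4, a5⟩ := steer (Fin.cons 0 (fun i => 7 * l * ((a i : ℕ) : ℤ)))
      (fun j => by
        refine Fin.cases ?_ (fun i => ?_) j
        · simp
        · have := (a i).2
          simp only [Fin.cons_succ]
          refine ⟨by positivity, ?_⟩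
          rw [hk]; push_cast
          have : ((a i : ℕ) : ℤ) ≤ m := by omega
          have : (0 : ℤ) ≤ 7 * l := by positivity
          nlinarith) k le_rfl
    refine ⟨q, a1, G, a3, a4, fun i => ?_⟩
    have := a5 i.succ (Fin.succ_ne_zero i)
    simpa using this
  choose f f1 G f2 f3 f4 using fin
  have inj : Function.Injective f := by
    intro a a' haa
    have hG : G a = G a' := by
      funext j
      have b1 := dvd_sub (f2 a' j) (f2 a j)
      rw [haa, show ∀ x : ℤ, x - G a' j - (x - G a j) = G a j - G a' j from fun x => by ring] at b1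
      have b2 := NN_ge (mm_ge le_rfl) (mm_ge (show (2 : ℤ) ≤ l by omega))
        (HH_pos (show (0 : ℤ) < l by omega)) (K + 1) j
      have b3 : (2 * (k * (N + 5 * l)) : ℤ) < 2 ^ (K + 1) := by exact_mod_cast K4
      have b4 := abs_le.1 (f3 a j)
      have b5 := abs_le.1 (f3 a' j)
      have := Int.eq_zero_of_abs_lt_dvd b1 (by rw [abs_lt]; constructor <;> linarith)
      omega
    funext i
    have b1 := abs_le.1 (f4 a i)
    have b2 := abs_le.1 (f4 a' i)
    rw [hG] at b1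
    apply Fin.ext
    have hl0 : (0 : ℤ) < l := by omega
    have b3 : ((a i : ℕ) : ℤ) < (a' i : ℕ) + 1 := by
      by_contra hh
      nlinarith
    have b4 : ((a' i : ℕ) : ℤ) < (a i : ℕ) + 1 := by
      by_contra hh
      nlinarith
    omega
  have card := Finset.card_le_card_of_injOn (s := Finset.univ) (t := nb (k * N) 0) f
    (fun a _ => f1 a) inj.injOn
  rw [card_nb] at card
  simp only [Finset.card_univ, Fintype.card_fun, Fintype.card_fin] at card
  have m1 : 1 ≤ m := by omega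
  have m2 : 2 * (k * N) + 1 ≤ 15 * l * N * m := by
    have : 1 ≤ l * N * m := Nat.mul_pos (Nat.mul_pos (by omega) (by omega)) m1
    rw [hk]; nlinarith
  have m3 : m ^ 3 ≤ (15 * l * N * m) * (15 * l * N * m) := card.trans (Nat.mul_le_mul m2 m2)
  have m4 : (15 * l * N * m) * (15 * l * N * m) = (m - 1) * m ^ 2 := by
    rw [show m - 1 = (15 * l * N) ^ 2 by omega]; ring
  have m5 : (m - 1) * m ^ 2 < m * m ^ 2 := Nat.mul_lt_mul_of_pos_right (by omega) (by positivity)
  have m6 : m * m ^ 2 = m ^ 3 := by ring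
  omega

end Pool.Agent.Lib.MP_4b554f_an
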