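import Pool.Agent.Lib.MP_4b554f_an.Tower

/-!
The physical layer: walls, counters, lanes and rays.
-/

set_option autoImplicit false
set_option linter.unusedSimpArgs false
set_option linter.unnecessarySeqFocus false
set_option linter.unusedVariables false

namespace Pool.Agent.Lib.MP_4b554f_an

/-- Main part of a symbol. -/
structure Mn where
  w : Fin 4 → Prop
  a : Fin 4 → Prop
  cnt : ℤ
  sc : V
  c : Cont
  u1 : Prop
  uo : Prop
  acc : Prop

def Mn.big (c : Mn) (j : Fin 4) : Prop := c.w j ∧ c.sc j = 0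
def Mn.on3 (c : Mn) : Prop := ∀ j, j ≠ 0 → c.w j ∧ c.sc j = 3

/-- Local rule of the main part: `n j` is the lower neighbour, `p j` the upper neighbour. -/
structure MR (c : Mn) (n p : Fin 4 → Mn) (d q : Mn) : Prop where
  wc : ∀ j k, k ≠ j → (c.w j ↔ (n k).w j)
  a1 : ∀ j, c.w j → c.a j
  a2 : ∀ j, ¬ c.w j → c.w 0 → ¬ c.a j
  a3 : ∀ j, ¬ c.w j → ¬ c.w 0 → (c.a j ↔ d.a j)
  a4 : ∀ j, (p 0).w 0 → c.a j
  a5 : ∀ j, (p j).w j → ¬ (p 0).w 0 → ¬ c.a j
  w2 : ¬ (c.w 0 ∧ (p 0).w 0)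
  k0 : 0 ≤ c.cnt ∧ c.cnt < 2002
  k1 : c.w 0 → c.cnt = 0
  k2 : ¬ c.w 0 → c.cnt = (d.cnt + 1) % 2002
  k3 : (p 0).w 0 → c.cnt = 0
  s0 : rng (mm 1) c.sc
  s1 : ∀ j k, k ≠ j → c.sc j = (n k).sc j
  s2 : ∀ j, c.w j → c.sc j = ((n j).sc j + 1) % mm 1 j
  s3 : ∀ j, ¬ c.w j → c.sc j = (n j).sc j
  c0 : Un False (mm 2) (mm 1) c.c
  c3 : ∀ j D, c.c.rib j = some D → D 0 = 0
  c1 : ∀ j, ¬ c.big j → c.c = (n j).c
  c2 : ∀ j, c.big j → Bin (mm 2) (mm 1) j (n j).c c.c
  l1 : ∀ j, j ≠ 0 → (¬ c.big j ∨ (n j).c.rib j ≠ none) → (c.u1 ↔ (n j).u1)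
  l2 : c.u1 → ∃ j, j ≠ 0 ∧ c.c.rib j ≠ none
  o1 : ∀ j, j ≠ 1 → (¬ c.big j ∨ (j = 0 ∧ ¬ cen (eff c.c))) → (c.uo ↔ (n j).uo)
  o2 : c.big 0 → cen (eff c.c) → c.sc 1 = 0 → ¬ c.w 1 → (c.uo ↔ q.uo)
  o3 : c.uo → c.c.rib 0 ≠ none ∧ c.sc 1 = 0
  ld : cen (eff c.c) → c.sc 1 = 0 → c.a 1 → (c.w 0 ∨ ¬ (n 0).a 1) → (c.uo ↔ c.u1)
  lf0 : ∀ j, zoo j 0 (eff c.c) → eff c.c j = 1 → c.sc 1 = 0 → c.w 1 → (c.c.f j = 1 ↔ c.uo)
  lf1 : ∀ j, zoo j 0 (eff c.c) → eff c.c j = 1 → c.sc 1 = 0 → (p 1).w 1 → (c.c.f j = 0 ↔ c.uo)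
  ac : c.acc ↔ cen (eff c.c) ∧ c.on3 ∧ (c.u1 ∨ (¬ c.w 0 ∧ (n 0).acc))
  ac2 : cen (eff c.c) → c.on3 → (p 0).w 0 → c.acc

def GM (M : V → Mn) : Prop :=
  ∀ x, MR (M x) (fun j => M (x - ee j)) (fun j => M (x + ee j)) (M (x - 1)) (M (x - ee 0 - ee 1))

def Ray (j : Fin 4) (w : V → Prop) (B : V → Cont) (u : V → Prop) (Y : V → V → Prop) : Prop :=
  ∀ x y, (Y x y ↔ (B y).rib 0 ≠ none ∧ ¬ w x ∧ ((cen (eff (B y)) ∧ u (x - ee j)) ∨
    (¬ cen (eff (B y)) ∧ Y (x - ee j) (y - ee 0)))) ∧ ¬ (Y x y ∧ u x)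

/-- A configuration, split into its layers. -/
structure Conf where
  M : V → Mn
  B : V → Cont
  Y1 : V → V → Prop
  Yo : V → V → Prop

structure Conf.ok (C : Conf) : Prop where
  gm : GM C.M
  vb : Valid (mm 2) (mm 2) C.B
  r1 : Ray 0 (fun x => (C.M x).w 0) C.B (fun x => (C.M x).u1) C.Y1
  ro : Ray 1 (fun x => (C.M x).w 1) C.B (fun x => (C.M x).uo) C.Yo

/-- Symbols. -/
structure Sy where
  m : Mn
  g : Cont
  y1 : Prop
  yo : Prop

def Conf.z (C : Conf) (v : V × V) : Sy := ⟨C.M v.1, C.B v.2, C.Y1 v.1 v.2, C.Yo v.1 v.2⟩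

def clamp (c : Cont) : Cont :=
  { c with rib := fun j => (c.rib j).map (fun D => Function.update D 0 0) }

def HH (h : ℤ) : V := fun j => h * mm 1 j

/-- The main layer determined by a period, an offset and an abstract configuration. -/
def physM (h : ℤ) (o : V) (A : V → Cont) (x : V) : Mn where
  w := fun j => (x j + o j) % h = 0
  a := fun j => (x j + o j) % h ≤ (x 0 + o 0) % h
  cnt := ((x 0 + o 0) % h) % 2002
  sc := fun j => ((x j + o j) / h) % mm 1 j
  c := clamp (A (idx (HH h) o x))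
  u1 := ∃ j D, j ≠ 0 ∧ (A (idx (HH h) o x)).rib j = some D ∧ D 0 = (x 0 + o 0) % h
  uo := ((x 1 + o 1) / h) % mm 1 1 = 0 ∧
    ∃ D, (A (idx (HH h) o x)).rib 0 = some D ∧ D 0 = (x 1 + o 1) % h
  acc := cen (eff (A (idx (HH h) o x))) ∧
    (∀ j, j ≠ 0 → (x j + o j) % h = 0 ∧ ((x j + o j) / h) % mm 1 j = 3) ∧
    ∃ D, (A (idx (HH h) o x)).rib 0 = some D ∧ D 0 ≤ (x 0 + o 0) % h

theorem pred_in {a h : ℤ} (hh : 0 < h) (h0 : a % h ≠ 0) :
    (a - 1) / h = a / h ∧ (a - 1) % h = a % h - 1 := by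
  have h1 := Int.mul_ediv_add_emod a h
  have h2 := Int.emod_nonneg a hh.ne'
  have h3 := Int.emod_lt_of_pos a hh
  exact (Int.ediv_emod_unique hh).2 ⟨by linarith, by omega, by omega⟩

theorem pred_out {a h : ℤ} (hh : 0 < h) (h0 : a % h = 0) :
    (a - 1) / h = a / h - 1 ∧ (a - 1) % h = h - 1 := by
  have h1 := Int.mul_ediv_add_emod a h
  exact (Int.ediv_emod_unique hh).2 ⟨by linarith, by omega, by omega⟩

theorem succ_mod {a h : ℤ} (hh : 0 < h) : (a + 1) % h = 0 ↔ a % h = h - 1 := by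
  have h3 := Int.emod_lt_of_pos (a + 1) hh
  constructor
  · intro h0
    simpa using (pred_out hh h0).2
  · intro h0
    by_contra h1
    have := (pred_in hh h1).2
    simp only [add_sub_cancel_right] at this
    omega

theorem mm1_pos (j : Fin 4) : 0 < mm 1 j := by fin_cases j <;> simp [mm]
theorem mm_ne0 (h h' : ℤ) {j : Fin 4} (hj : j ≠ 0) : mm h j = mm h' j := by
  fin_cases j <;> simp_all [mm]
@[simp] theorem mm_zero (h : ℤ) : mm h 0 = h := rfl

theorem HH_pos {h : ℤ} (hh : 0 < h) (j : Fin 4) : 0 < HH h j := mul_pos hh (mm1_pos j)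

theorem idx_HH {h : ℤ} (hh : 0 < h) (o x : V) (j : Fin 4) :
    idx (HH h) o x j = ((x j + o j) / h) / mm 1 j := by
  simp only [idx, HH]
  rw [Int.ediv_ediv_of_nonneg hh.le]

theorem sub_ee_add (x o : V) (j : Fin 4) : (x - ee j) j + o j = x j + o j - 1 := by
  simp; ring
theorem add_ee_add (x o : V) (j : Fin 4) : (x + ee j) j + o j = x j + o j + 1 := by
  simp; ring
theorem sub_ee_ne (x : V) {j k : Fin 4} (h : k ≠ j) : (x - ee k) j = x j := by
  simp [ee_ne h.symm]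
theorem sub_one_add (x o : V) (j : Fin 4) : (x - 1 : V) j + o j = x j + o j - 1 := by
  simp; ring

theorem idx_in {h : ℤ} (hh : 0 < h) {o x : V} {j : Fin 4}
    (hb : ¬ ((x j + o j) % h = 0 ∧ ((x j + o j) / h) % mm 1 j = 0)) :
    idx (HH h) o (x - ee j) = idx (HH h) o x := by
  funext i
  rw [idx_HH hh, idx_HH hh]
  by_cases hi : i = j
  · subst hi
    rw [sub_ee_add]
    by_cases h1 : (x i + o i) % h = 0
    · rw [(pred_out hh h1).1, (pred_in (mm1_pos i) (fun h2 => hb ⟨h1, h2⟩)).1]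
    · rw [(pred_in hh h1).1]
  · rw [sub_ee_ne x (Ne.symm hi)]

theorem idx_out {h : ℤ} (hh : 0 < h) {o x : V} {j : Fin 4}
    (hb : (x j + o j) % h = 0 ∧ ((x j + o j) / h) % mm 1 j = 0) :
    idx (HH h) o (x - ee j) = idx (HH h) o x - ee j := by
  funext i
  rw [Pi.sub_apply, idx_HH hh, idx_HH hh]
  by_cases hi : i = j
  · subst hi
    rw [sub_ee_add, (pred_out hh hb.1).1, (pred_out (mm1_pos i) hb.2).1, ee_self]
  · rw [sub_ee_ne x (Ne.symm hi), ee_ne hi, sub_zero]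

theorem clamp_rib {c : Cont} {j : Fin 4} {D : V} :
    (clamp c).rib j = some D ↔ ∃ D', c.rib j = some D' ∧ Function.update D' 0 0 = D := by
  simp [clamp]

theorem clamp_none {c : Cont} {j : Fin 4} : (clamp c).rib j = none ↔ c.rib j = none := by
  simp [clamp]

theorem eff_clamp (c : Cont) : eff (clamp c) = eff c := rfl

theorem un_clamp {h : ℤ} {c : Cont} (u : Un True (mm 2) (mm h) c) :
    Un False (mm 2) (mm 1) (clamp c) := by
  refine ⟨u.rb, u.ed, u.e2, u.e3, u.f3, ?_, ?_, u.nz, ?_, ?_, ?_⟩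
  · intro j h1 h2; exact clamp_none.2 (u.r0 j h1 h2)
  · intro j h1 h2; exact u.r1 j h1 (clamp_none.1 h2)
  · intro j D h1 i
    obtain ⟨D', h2, rfl⟩ := clamp_rib.1 h1
    by_cases hi : i = 0
    · subst hi; simp
    · rw [Function.update_of_ne hi, mm_ne0 1 h hi]; exact u.rbd j D' h2 i
  · intro h1
    obtain ⟨D, h2, h3⟩ := u.ce h1
    refine ⟨Function.update D 0 0, fun i => ?_, fun j => clamp_rib.2 ⟨D, h3 j, rfl⟩⟩
    by_cases hi : i = 0
    · subst hi; simp
    · rw [Function.update_of_ne hi, mm_ne0 1 h hi]; exact h2 i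
  · intro i j E h0 h1 h2 h3
    have hi : i ≠ 0 := by simpa using h0
    obtain ⟨D', h4, rfl⟩ := clamp_rib.1 h3
    have := u.f2 i j D' (Or.inr trivial) h1 h2 h4
    simp only [scl, Function.update_of_ne hi, mm_ne0 1 h hi] at this ⊢
    exact this

theorem bin_clamp {h : ℤ} {j : Fin 4} {n c : Cont} (B : Bin (mm 2) (mm h) j n c) :
    Bin (mm 2) (mm 1) j (clamp n) (clamp c) := by
  refine ⟨B.sb, B.se, B.sf, ?_, ?_⟩
  · intro h1
    have := B.sr h1
    simp only [clamp, this]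
  · intro h1
    obtain ⟨E, D, h2, h3, h4⟩ := B.sc h1
    refine ⟨_, _, clamp_rib.2 ⟨E, h2, rfl⟩, clamp_rib.2 ⟨D, h3, rfl⟩, fun i hi => ?_, ?_⟩
    · by_cases h0 : i = 0
      · subst h0; simp
      · rw [Function.update_of_ne h0, Function.update_of_ne h0]; exact h4.1 i hi
    · by_cases h0 : j = 0
      · subst h0; simp
      · rw [Function.update_of_ne h0, Function.update_of_ne h0, mm_ne0 1 h h0]; exact h4.2

theorem ex3 : ∀ j j' : Fin 4, j ≠ j' → ∀ i, i ≠ j ∨ i ≠ j' := by decide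

/-- All ribbons of a cell carry the same label. -/
theorem one_rib {fl : Prop} {m m' : V} {c : Cont} (u : Un fl m m' c) {j j' : Fin 4} {D D' : V}
    (h : c.rib j = some D) (h' : c.rib j' = some D') : D = D' := by
  by_cases hj : j = j'
  · subst hj; rw [h] at h'; simpa using h'
  · have h1 : axs j (eff c) ∨ lin j (eff c) := by
      by_contra hh
      rw [u.r0 j (by tauto) (by tauto)] at h
      simp at h
    have h2 : axs j' (eff c) ∨ lin j' (eff c) := by
      by_contra hh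
      rw [u.r0 j' (by tauto) (by tauto)] at h'
      simp at h'
    rcases h1 with h1 | h1 <;> rcases h2 with h2 | h2
    · obtain ⟨i, hi⟩ := u.nz
      rcases ex3 j j' hj i with h3 | h3
      · exact absurd (h1 i h3) hi
      · exact absurd (h2 i h3) hi
    · exact absurd h1 (lin_not_axs h2)
    · exact absurd h2 (lin_not_axs h1)
    · have hc : cen (eff c) := fun i => (ex3 j j' hj i).elim (h1 i) (h2 i)
      obtain ⟨E, _, h3⟩ := u.ce hc
      rw [h3] at h h'
      simp only [Option.some.injEq] at h h'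
      rw [← h, ← h']

theorem bin_rib0 {m m' : V} {j : Fin 4} {n c : Cont} (B : Bin m m' j n c) (hj : j ≠ 0) {E : V}
    (h : n.rib j = some E) : ∃ D, c.rib j = some D ∧ D 0 = E 0 := by
  by_cases hc : cen (eff c)
  · obtain ⟨E', D, h1, h2, h3⟩ := B.sc hc
    rw [h] at h1
    simp only [Option.some.injEq] at h1
    exact ⟨D, h2, by rw [h1]; exact h3.1 0 hj.symm⟩
  · exact ⟨E, by rw [B.sr hc, h], rfl⟩

theorem zoo_lin {j : Fin 4} {t : Ty} (h1 : zoo j 0 t) (h2 : t j = 1) : lin 0 t := by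
  intro k hk
  by_cases hkj : k = j
  · rw [hkj]; exact h2
  · exact h1.2.2 k hk hkj

theorem gm_phys {h : ℤ} (h2 : 2 ≤ h) (h3 : h % 2002 = 1) (o : V) {A : V → Cont}
    (hA : Valid (mm 2) (mm h) A) : GM (physM h o A) := by
  have hh : 0 < h := by omega
  intro x
  have r0 : ∀ a : ℤ, 0 ≤ a % h := fun a => Int.emod_nonneg a hh.ne'
  have r1 : ∀ a : ℤ, a % h < h := fun a => Int.emod_lt_of_pos a hh
  have u := (hA (idx (HH h) o x)).1
  constructor
  · intro j k hk
    simp only [physM, sub_ee_ne x hk]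
  · intro j h0
    simp only [physM] at h0 ⊢
    rw [h0]; exact r0 _
  · intro j h0 h1
    simp only [physM] at h0 h1 ⊢
    have := r0 (x j + o j)
    omega
  · intro j h0 h1
    simp only [physM, sub_one_add] at h0 h1 ⊢
    rw [(pred_in hh h0).2, (pred_in hh h1).2]
    omega
  · intro j h0
    simp only [physM, add_ee_add, succ_mod hh] at h0 ⊢
    have := r1 (x j + o j)
    omega
  · intro j h0 h1
    simp only [physM, add_ee_add, succ_mod hh] at h0 h1 ⊢
    have := r1 (x 0 + o 0)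
    omega
  · simp only [physM, add_ee_add, succ_mod hh]
    omega
  · simp only [physM]
    omega
  · intro h0
    simp only [physM] at h0 ⊢
    omega
  · intro h0
    simp only [physM, sub_one_add] at h0 ⊢
    rw [(pred_in hh h0).2]
    omega
  · intro h0
    simp only [physM, add_ee_add, succ_mod hh] at h0 ⊢
    omega
  · intro j
    exact ⟨Int.emod_nonneg _ (mm1_pos j).ne', Int.emod_lt_of_pos _ (mm1_pos j)⟩
  · intro j k hk
    simp only [physM, sub_ee_ne x hk]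
  · intro j h0
    simp only [physM, sub_ee_add] at h0 ⊢
    rw [(pred_out hh h0).1, Int.emod_add_emod]
    simp
  · intro j h0
    simp only [physM, sub_ee_add] at h0 ⊢
    rw [(pred_in hh h0).1]
  · exact un_clamp u
  · intro j D h0
    obtain ⟨D', _, rfl⟩ := clamp_rib.1 h0
    simp
  · intro j h0
    simp only [physM, idx_in hh h0]
  · intro j h0
    simp only [physM, idx_out hh h0]
    exact bin_clamp ((hA _).2 j)
  · intro j hj h0
    by_cases hb : (physM h o A x).big j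
    · have h1 := h0.resolve_left (not_not.2 hb)
      simp only [physM, idx_out hh hb, sub_ee_ne x hj, ne_eq, clamp_none] at h1 ⊢
      obtain ⟨E, hE⟩ := Option.ne_none_iff_exists'.1 h1
      obtain ⟨D, hD, hDE⟩ := bin_rib0 ((hA _).2 j) hj hE
      constructor
      · rintro ⟨j', D', h4, h5, h6⟩
        exact ⟨j, E, hj, hE, by rw [← hDE, one_rib u hD h5, h6]⟩
      · rintro ⟨j', D', h4, h5, h6⟩
        exact ⟨j, D, hj, hD, by rw [hDE, one_rib (hA _).1 hE h5, h6]⟩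
    · simp only [physM, idx_in hh hb, sub_ee_ne x hj]
  · rintro ⟨j, D, h4, h5, _⟩
    refine ⟨j, h4, ?_⟩
    simp only [physM, ne_eq, clamp_none, h5]
    simp
  · intro j hj h0
    by_cases hb : (physM h o A x).big j
    · obtain ⟨rfl, h1⟩ := h0.resolve_left (not_not.2 hb)
      simp only [physM, idx_out hh hb, sub_ee_ne x hj, eff_clamp] at h1 ⊢
      rw [((hA _).2 0).sr h1]
    · simp only [physM, idx_in hh hb, sub_ee_ne x hj]
  · intro hb hc h0 h1
    have e1 : (x - ee 0 - ee 1 : V) 1 + o 1 = x 1 + o 1 - 1 := by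
      rw [sub_ee_add, sub_ee_ne x (by decide)]
    have e2 : idx (HH h) o (x - ee 0 - ee 1) = idx (HH h) o x - ee 0 := by
      rw [idx_in hh, idx_out hh hb]
      rw [sub_ee_ne x (by decide)]
      exact fun hh => h1 hh.1
    simp only [physM, e1, e2, eff_clamp] at h0 h1 hc ⊢
    rw [(pred_in hh h1).1, (pred_in hh h1).2]
    obtain ⟨E, D, h4, h5, h6⟩ := ((hA _).2 0).sc hc
    have h7 := h6.2
    have h8 := r0 (x 1 + o 1)
    have h9 := r1 (x 1 + o 1)
    obtain ⟨D', h10, h11⟩ := u.ce hc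
    have h12 := h10 0
    rw [← one_rib u h5 (h11 0)] at h12
    simp only [h0, h4, h5, Option.some.injEq, exists_eq_left', true_and, mm_zero] at h7 h12 ⊢
    omega
  · rintro ⟨h0, D, h1, _⟩
    refine ⟨?_, h0⟩
    simp only [physM, ne_eq, clamp_none, h1]
    simp
  · intro hc h0 h1 h4
    simp only [physM, eff_clamp, sub_ee_add, sub_ee_ne x (show (0 : Fin 4) ≠ 1 by decide)]
      at hc h0 h1 h4 ⊢
    have h5 : (x 1 + o 1) % h = (x 0 + o 0) % h := by
      have := r0 (x 1 + o 1)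
      by_cases h6 : (x 0 + o 0) % h = 0
      · omega
      · have h7 := h4.resolve_left h6
        rw [(pred_in hh h6).2] at h7
        omega
    obtain ⟨D, _, h11⟩ := u.ce hc
    simp only [h0, h11, h5, Option.some.injEq, exists_eq_left', true_and]
    constructor
    · intro h6; exact ⟨1, D, by decide, rfl, h6⟩
    · rintro ⟨_, _, _, rfl, h6⟩; exact h6
  · intro j h0 h1 h4 h5
    simp only [physM, eff_clamp] at h0 h1 h4 h5 ⊢
    obtain ⟨E, hE⟩ := Option.ne_none_iff_exists'.1 (u.r1 0 (zoo_lin h0 h1))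
    have := u.f2 0 j E (Or.inr trivial) h0 h1 hE
    simp only [h4, h5, hE, Option.some.injEq, exists_eq_left', true_and, clamp, this, scl, mm_zero]
    split_ifs <;> simp <;> omega
  · intro j h0 h1 h4 h5
    simp only [physM, eff_clamp, add_ee_add, succ_mod hh] at h0 h1 h4 h5 ⊢
    obtain ⟨E, hE⟩ := Option.ne_none_iff_exists'.1 (u.r1 0 (zoo_lin h0 h1))
    have := u.f2 0 j E (Or.inr trivial) h0 h1 hE
    simp only [h4, h5, hE, Option.some.injEq, exists_eq_left', true_and, clamp, this, scl, mm_zero]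
    split_ifs <;> simp <;> omega
  · show (physM h o A x).acc ↔ cen (eff (A (idx (HH h) o x))) ∧
      (∀ j, j ≠ 0 → (x j + o j) % h = 0 ∧ ((x j + o j) / h) % mm 1 j = 3) ∧
      ((physM h o A x).u1 ∨ (¬ (x 0 + o 0) % h = 0 ∧ (physM h o A (x - ee 0)).acc))
    simp only [physM]
    refine and_congr_right (fun hc => and_congr_right (fun h0 => ?_))
    obtain ⟨D, h10, h11⟩ := u.ce hc
    have h12 := (h10 0).1
    have h4 : (∃ j D, j ≠ 0 ∧ (A (idx (HH h) o x)).rib j = some D ∧ D 0 = (x 0 + o 0) % h) ↔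
        D 0 = (x 0 + o 0) % h := by
      simp only [h11, Option.some.injEq]
      constructor
      · rintro ⟨_, _, _, rfl, h6⟩; exact h6
      · intro h6; exact ⟨1, D, by decide, rfl, h6⟩
    rw [h4]
    by_cases h5 : (x 0 + o 0) % h = 0
    · simp only [h11, h5, Option.some.injEq, exists_eq_left']
      simp; omega
    · rw [idx_in hh (fun hh => h5 hh.1), sub_ee_add, (pred_in hh h5).2]
      have h6 : ∀ j, j ≠ 0 → ((x - ee 0 : V) j + o j) % h = 0 ∧
          (((x - ee 0 : V) j + o j) / h) % mm 1 j = 3 := by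
        intro j hj; rw [sub_ee_ne x hj.symm]; exact h0 j hj
      simp only [h11, h5, Option.some.injEq, exists_eq_left', hc, true_and, not_false_iff]
      rw [and_iff_right h6]
      omega
  · intro hc h0 h1
    simp only [physM, eff_clamp, add_ee_add, succ_mod hh] at hc h1
    obtain ⟨D, h10, h11⟩ := u.ce hc
    have h12 := (h10 0).2
    refine ⟨hc, h0, D, h11 0, ?_⟩
    simp only [mm_zero] at h12
    omega

def rayG (j : Fin 4) (B : V → Cont) (u : V → Prop) : ℕ → V → V → Prop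
  | 0, _, _ => False
  | r + 1, x, y => (B y).rib 0 ≠ none ∧ ((cen (eff (B y)) ∧ u (x - ee j)) ∨
      (¬ cen (eff (B y)) ∧ rayG j B u r (x - ee j) (y - ee 0)))

theorem rayG_src {j : Fin 4} {B : V → Cont} {u : V → Prop} :
    ∀ r x y, rayG j B u r x y → ∃ s : ℕ, s < r ∧ u (x - ((s : ℤ) + 1) • ee j) := by
  intro r
  induction r with
  | zero => intro x y h; exact h.elim
  | succ r ih =>
    intro x y h
    rcases h.2 with h1 | h1
    · exact ⟨0, by omega, by simpa using h1.2⟩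
    · obtain ⟨s, h2, h3⟩ := ih _ _ h1.2
      refine ⟨s + 1, by omega, ?_⟩
      rw [show x - (((s + 1 : ℕ) : ℤ) + 1) • ee j = x - ee j - ((s : ℤ) + 1) • ee j by
        push_cast; rw [add_smul _ 1]; simp; abel]
      exact h3

theorem exists_ray {h : ℤ} (hh : 0 < h) (o : V) (j : Fin 4) (B : V → Cont) (u : V → Prop)
    (hu : ∀ x (s : ℕ), (s : ℤ) < (x j + o j) % h → u (x - ((s : ℤ) + 1) • ee j) → ¬ u x) :
    ∃ Y, Ray j (fun x => (x j + o j) % h = 0) B u Y := by
  refine ⟨fun x y => rayG j B u ((x j + o j) % h).toNat x y, fun x y => ⟨?_, ?_⟩⟩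
  · by_cases h0 : (x j + o j) % h = 0
    · simp [h0, rayG]
    · have h1 := Int.emod_nonneg (x j + o j) hh.ne'
      simp only [sub_ee_add, (pred_in hh h0).2]
      rw [show ((x j + o j) % h).toNat = ((x j + o j) % h - 1).toNat + 1 by omega]
      simp only [rayG, h0, not_false_iff, true_and]
  · rintro ⟨h1, h2⟩
    obtain ⟨s, h3, h4⟩ := rayG_src _ _ _ h1
    exact hu x s (by omega) h4 h2

theorem back_in {h : ℤ} (hh : 0 < h) (o x : V) (j : Fin 4) : ∀ s : ℕ, (s : ℤ) ≤ (x j + o j) % h →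
    idx (HH h) o (x - (s : ℤ) • ee j) = idx (HH h) o x ∧
    ((x - (s : ℤ) • ee j : V) j + o j) % h = (x j + o j) % h - s ∧
    ((x - (s : ℤ) • ee j : V) j + o j) / h = (x j + o j) / h := by
  intro s
  induction s with
  | zero => simp
  | succ s ih =>
    intro hs
    push_cast at hs
    obtain ⟨h1, h2, h3⟩ := ih (by omega)
    have e : x - ((s + 1 : ℕ) : ℤ) • ee j = x - (s : ℤ) • ee j - ee j := by
      push_cast; rw [add_smul]; simp; abel
    have h4 : ((x - (s : ℤ) • ee j : V) j + o j) % h ≠ 0 := by omega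
    rw [e, idx_in hh (fun hh => h4 hh.1), sub_ee_add, (pred_in hh h4).1, (pred_in hh h4).2]
    refine ⟨h1, ?_, h3⟩
    push_cast; omega

theorem exists_conf {h : ℤ} (h2 : 2 ≤ h) (h3 : h % 2002 = 1) :
    ∃ C : Conf, C.ok ∧ ∃ o A, Valid (mm 2) (mm h) A ∧ C.M = physM h o A := by
  have hh : 0 < h := by omega
  obtain ⟨A, hA⟩ := exists_valid' h2
  obtain ⟨B, hB⟩ := exists_valid (le_refl (2 : ℤ))
  obtain ⟨Y1, h1⟩ := exists_ray hh 0 0 B (fun x => (physM h 0 A x).u1) (by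
    rintro x s hs ⟨j, D, _, h4, h5⟩ ⟨j', D', _, h6, h7⟩
    obtain ⟨h8, h9, _⟩ := back_in hh 0 x 0 (s + 1) (by push_cast; omega)
    push_cast at h8 h9
    rw [h8] at h4
    rw [h9, one_rib (hA _).1 h4 h6, h7] at h5
    omega)
  obtain ⟨Yo, ho⟩ := exists_ray hh 0 1 B (fun x => (physM h 0 A x).uo) (by
    rintro x s hs ⟨_, D, h4, h5⟩ ⟨_, D', h6, h7⟩
    obtain ⟨h8, h9, _⟩ := back_in hh 0 x 1 (s + 1) (by push_cast; omega)
    push_cast at h8 h9
    rw [h8] at h4
    rw [h9, one_rib (hA _).1 h4 h6, h7] at h5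
    omega)
  exact ⟨⟨physM h 0 A, B, Y1, Yo⟩, ⟨gm_phys h2 h3 0 hA, hB, h1, ho⟩, 0, A, hA, rfl⟩

end Pool.Agent.Lib.MP_4b554f_an
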