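import Pool.Agent.Lib.MP_4b554f_an.Thin

/-!
Generic symbols of a site under a family of shifts.
-/

set_option autoImplicit false
set_option linter.unusedSimpArgs false
set_option linter.unnecessarySeqFocus false
set_option linter.unusedVariables false

namespace Pool.Agent.Lib.MP_4b554f_an

def Conf.row (C : Conf) (n : ℤ) : Sy := C.z (cv n, cv n)

def BG (C : Conf) (SB : ℕ → V) : Prop :=
  Hier (mm 2) (mm 2) 1 C.B SB ∧ ∀ y L, inert (dB SB L y) → (C.B y).rib 0 ≠ none →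
    ∃ i : ℕ, cen (eff (C.B (y - (i : ℤ) • ee 0)))

def ND (C : Conf) (h : ℤ) (S : ℕ → V) : Prop :=
  2 ≤ h ∧ h % 2002 = 1 ∧ ∃ A, Valid (mm 2) (mm h) A ∧ C.M = physM h (S 0) A ∧
    Hier (mm 2) (mm h) (HH h) (fun x => A (idx (HH h) (S 0) x)) S

theorem exists_BG {C : Conf} (hC : C.ok) : ∃ SB, BG C SB := by
  obtain ⟨S, _, h1, h2⟩ := exists_hier (H := 1) (mm_ge le_rfl) (mm_ge le_rfl) (by simp) hC.vb 0
  have e : ∀ y : V, idx 1 0 y = y := fun y => by funext j; simp [idx]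
  simp only [e] at h1 h2
  exact ⟨S, h1, h2⟩

theorem nd_of {C : Conf} {h : ℤ} {o : V} {A : V → Cont} (h1 : 2 ≤ h) (h2 : h % 2002 = 1)
    (h3 : Valid (mm 2) (mm h) A) (h4 : C.M = physM h o A) : ∃ S, ND C h S := by
  obtain ⟨S, h5, h6, _⟩ := exists_hier (mm_ge le_rfl) (mm_ge h1) (HH_pos (show 0 < h by omega)) h3 o
  subst h5
  exact ⟨S, h1, h2, A, h3, h4, h6⟩

theorem exists_ND {C : Conf} (hC : C.ok) (h2 : Two C.M) : ∃ h S, ND C h S := by
  obtain ⟨h, o, A, h1, h3, h4, h5⟩ := extract hC h2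
  exact ⟨h, nd_of h1 h3 h4 h5⟩

theorem relD_refl (R : Finset ℤ) {d d' : V} (h : ∀ j, d j = d' j) : relD R d d' :=
  ⟨fun j _ => h j, Or.inl (h 0)⟩

theorem rel_eq {c c' : Cont} (h : ∀ R, Rel R c c') : c = c' := by
  apply Cont.ext4 _ (h ∅).re (h ∅).rf
  · funext j
    rcases (h ∅).rr j with h1 | ⟨D, D', h1, h2, _⟩
    · rw [h1.1, h1.2]
    · rcases (h {D 0}).rr j with h3 | ⟨E, E', h3, h4, h5⟩
      · rw [h3.1, h3.2]
      · rw [h1] at h3
        simp only [Option.some.injEq] at h3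
        subst h3
        rw [h1, h4]
        congr 1
        funext i
        by_cases hi : i = 0
        · subst hi; simpa using h5.2
        · exact h5.1 i hi
  · funext i
    have h5 := (h {c.b 0}).rb
    by_cases hi : i = 0
    · subst hi; simpa [gd] using h5.2
    · exact h5.1 i hi

theorem bg_inv {C : Conf} {SB : ℕ → V} (hB : BG C SB) {L : ℕ} {τ δ : ℤ}
    (hi : inert (dB SB L (cv τ))) (hδ : (2002 : ℤ) ^ (L + 1) ∣ δ) (i : ℤ) :
    C.B (cv (τ + δ) - i • ee 0) = C.B (cv τ - i • ee 0) := by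
  symm
  apply rel_eq
  intro R
  have hp : ∀ k j, NN (mm 2) (mm 2) 1 k j ≠ 0 := fun k j =>
    (NN_pos (mm_ge le_rfl) (mm_ge le_rfl) (by simp) k j).ne'
  apply hB.1.rare R _ _ L
  · intro k hk
    apply relD_refl
    intro j
    apply dgt_inv (hp k j)
    rw [NB_eq]
    have : mm 2 j ^ (k + 1) ∣ δ :=
      ((pow_dvd_pow_of_dvd (mm2_dvd j) _).trans (pow_dvd_pow _ (by omega))).trans hδ
    simpa [cv] using this
  · intro j hj
    rw [← hi j hj]
    exact dgt_inv (hp L j) (by simp [ee_ne hj])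

theorem rayR {j : Fin 4} {h : ℤ} (hh : 0 < h) {o : V} {B : V → Cont} {u : V → Prop}
    {Y : V → V → Prop} (hY : Ray j (fun x => (x j + o j) % h = 0) B u Y) :
    ∀ (r : ℕ) (y : V), ∃ (P : Prop) (s : ℕ), (P → s < r) ∧ ∀ x y', (x j + o j) % h = r →
      (∀ i : ℤ, B (y' - i • ee 0) = B (y - i • ee 0)) →
      (Y x y' ↔ P ∧ u (x - ((s : ℤ) + 1) • ee j)) := by
  intro r
  induction r with
  | zero =>
    intro y
    refine ⟨False, 0, fun h => h.elim, fun x y' h1 _ => ?_⟩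
    rw [(hY x y').1]
    simp at h1
    simp [h1]
  | succ r ih =>
    intro y
    by_cases hc : cen (eff (B y))
    · refine ⟨(B y).rib 0 ≠ none, 0, fun _ => by omega, fun x y' h1 h2 => ?_⟩
      have h3 : B y' = B y := by simpa using h2 0
      have h4 : (x j + o j) % h ≠ 0 := by omega
      rw [(hY x y').1, h3]
      simp [hc, h4]
    · obtain ⟨P, s, h5, h6⟩ := ih (y - ee 0)
      refine ⟨(B y).rib 0 ≠ none ∧ P, s + 1, fun h => by have := h5 h.2; omega,
        fun x y' h1 h2 => ?_⟩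
      have h3 : B y' = B y := by simpa using h2 0
      have h4 : (x j + o j) % h ≠ 0 := by omega
      rw [(hY x y').1, h3, h6 (x - ee j) (y' - ee 0)
        (by rw [sub_ee_add, (pred_in hh h4).2]; push_cast at h1; omega)
        (fun i => by
          have := h2 (i + 1)
          rwa [add_smul, one_smul, add_comm, ← sub_sub, ← sub_sub] at this),
        show x - (((s + 1 : ℕ) : ℤ) + 1) • ee j = x - ee j - ((s : ℤ) + 1) • ee j by
          push_cast; rw [add_smul _ 1]; simp; abel]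
      simp [hc, h4, and_assoc]

theorem rel_clamp {R : Finset ℤ} {c c' : Cont} (h : Rel R c c') (hb : c.b 0 = c'.b 0) :
    clamp c = clamp c' := by
  refine Cont.ext4 (c := clamp c) (c' := clamp c') ?_ h.re h.rf ?_
  · funext i
    by_cases hi : i = 0
    · subst hi; exact hb
    · exact h.rb.1 i hi
  · funext j
    simp only [clamp]
    rcases h.rr j with h1 | ⟨D, D', h1, h2, h3⟩
    · rw [h1.1, h1.2]
    · rw [h1, h2]
      simp only [Option.map_some, Option.some.injEq]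
      funext i
      by_cases hi : i = 0
      · subst hi; simp
      · rw [Function.update_of_ne hi, Function.update_of_ne hi, h3.1 i hi]

theorem rel_lane {R : Finset ℤ} {c c' : Cont} (h : Rel R c c') {r : ℤ} (hr : r ∈ R) (j : Fin 4) :
    (∃ D, c.rib j = some D ∧ D 0 = r) ↔ (∃ D, c'.rib j = some D ∧ D 0 = r) := by
  rcases h.rr j with h1 | ⟨D, D', h1, h2, h3⟩
  · simp [h1.1, h1.2]
  · simp only [h1, h2, Option.some.injEq, exists_eq_left']
    rcases h3.2 with h4 | h4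
    · rw [h4]
    · exact iff_of_false (fun h5 => h4.1 (h5 ▸ hr)) (fun h5 => h4.2 (h5 ▸ hr))

theorem rel_lane' {R : Finset ℤ} {c c' : Cont} (h : Rel R c c') {r : ℤ} (hr : r ∈ R) :
    (∃ j D, j ≠ 0 ∧ c.rib j = some D ∧ D 0 = r) ↔ (∃ j D, j ≠ 0 ∧ c'.rib j = some D ∧ D 0 = r) := by
  refine exists_congr (fun j => ?_)
  simp only [exists_and_left, rel_lane h hr j]

theorem Sy.ext4 {c c' : Sy} (h1 : c.m = c'.m) (h2 : c.g = c'.g) (h3 : c.y1 ↔ c'.y1)
    (h4 : c.yo ↔ c'.yo) : c = c' := by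
  cases c; cases c'; simp_all

theorem mod_inv {h a δ M : ℤ} (hh : 0 < h) (hδ : h * M ∣ δ) :
    (a + δ) % h = a % h ∧ ((a + δ) / h) % M = (a / h) % M := by
  obtain ⟨c, rfl⟩ := hδ
  rw [mul_assoc, Int.add_mul_emod_self_left, Int.add_mul_ediv_left _ _ hh.ne',
    Int.add_mul_emod_self_left]
  exact ⟨rfl, rfl⟩

/-- The exceptional position: on the checking line of a centre holding a variable digit. -/
def Exc (h : ℤ) (S : ℕ → V) (e K : ℕ) (τ : ℤ) : Prop :=
  ∃ μ, e * (μ + 1) ≤ K ∧ K < e * (μ + 2) ∧ (∀ k, k < μ → ∀ j, dM h S k (cv τ) j = 0) ∧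
    (∀ j, dM h S μ (cv τ) j = 1) ∧
    ∀ j, j ≠ 0 → (τ + S 0 j) % h = 0 ∧ ((τ + S 0 j) / h) % mm 1 j = 3

theorem dM_inv {l e K L : ℕ} (hl : l.Prime) {u W : ℤ} (hu : 0 < u) (he : e ≤ K)
    (hW' : (2002 * u) ^ (L + 2) ∣ W) (S : ℕ → V) (τ : ℤ) (a b : ℤ) {k : ℕ} (hk : k ≤ L)
    (j : Fin 4) (hj : j ≠ 0 ∨ e * (k + 1) ≤ K) :
    dM (l ^ e * u) S k (cv (τ + a * (l ^ K * W))) j =
      dM (l ^ e * u) S k (cv (τ + b * (l ^ K * W))) j := by
  have hl0 : (0 : ℤ) < l := by exact_mod_cast hl.pos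
  have h1 : NN (mm 2) (mm (l ^ e * u)) (HH (l ^ e * u)) (k + 1) j ∣ l ^ K * W := by
    by_cases h0 : j = 0
    · subst h0
      apply NM0_dvd (hj.resolve_left (by simp))
      exact ((pow_dvd_pow_of_dvd (mul_dvd_mul_right (by norm_num) u) _).trans
        (pow_dvd_pow _ (by omega))).trans hW'
    · rw [NM_ne0 _ _ h0, mul_assoc]
      apply mul_dvd_mul (pow_dvd_pow _ he)
      refine dvd_trans ?_ hW'
      rw [mul_pow, mul_comm]
      apply mul_dvd_mul _ (dvd_pow_self _ (by omega))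
      exact (pow_dvd_pow_of_dvd ((mm1_dvd j).trans (by norm_num)) _).trans
        (pow_dvd_pow _ (by omega))
  apply dgt_inv
  · by_cases h0 : j = 0
    · subst h0
      rcases k with _ | k
      · simp [NN, HH]; omega
      · rw [NM_zero]; positivity
    · have := mm1_pos j
      rw [NM_ne0 _ _ h0]; positivity
  · simp only [cv]
    rw [show τ + a * (l ^ K * W) - (τ + b * (l ^ K * W)) = (l ^ K * W) * (a - b) by ring]
    exact h1.mul_right _

theorem HH_dvd {l e K L : ℕ} {u W : ℤ} (he : e ≤ K) (hW' : (2002 * u) ^ (L + 2) ∣ W) (j : Fin 4) :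
    (l : ℤ) ^ e * u * mm 1 j ∣ l ^ K * W := by
  rw [mul_assoc]
  apply mul_dvd_mul (pow_dvd_pow _ he)
  refine dvd_trans ?_ ((dvd_pow_self _ (by omega)).trans hW')
  rw [mul_comm]
  exact mul_dvd_mul_right ((mm1_dvd j).trans (by norm_num)) u

theorem site_nd {C : Conf} (hC : C.ok) {SB S : ℕ → V} (hB : BG C SB) {l e K L L1 L2 : ℕ}
    (hl : l.Prime) (hl10 : 10 < l) {u W : ℤ} (hu : 0 < u) (he : e ≤ K) (hN : ND C (l ^ e * u) S)
    (hW : ¬ (l : ℤ) ∣ W) (hW' : (2002 * u) ^ (L + 2) ∣ W) {τ : ℤ} (h1 : L1 ≤ L) (h2 : L2 ≤ L)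
    (i1 : inert (dM (l ^ e * u) S L1 (cv τ))) (i2 : inert (dB SB L2 (cv τ)))
    (hE : ¬ Exc (l ^ e * u) S e K τ) :
    ∃ g, Thin l 10 (fun j => C.row (τ + j * (l ^ K * W)) = g) := by
  classical
  obtain ⟨h3, _, A, hA, hM, hH⟩ := hN
  have hdi := dM_inv hl hu he hW' S τ
  have hHd := HH_dvd (l := l) he hW'
  have hth := thin_dig (L := L) hl hu he hW (((pow_dvd_pow_of_dvd
    (mul_dvd_mul_right (by norm_num) u) _).trans (pow_dvd_pow _ (by omega))).trans hW') S τ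
  have hQ : (2002 : ℤ) ^ (L2 + 1) ∣ l ^ K * W := by
    refine Dvd.dvd.mul_left (dvd_trans ?_ hW') _
    exact (pow_dvd_pow _ (by omega)).trans (pow_dvd_pow_of_dvd (Dvd.intro _ rfl) _)
  generalize (l : ℤ) ^ e * u = h at *
  generalize (l : ℤ) ^ K * W = Q at *
  have hh : 0 < h := by omega
  have hm : ∀ (a : ℤ) j, (cv (τ + a * Q) j + S 0 j) % h = (τ + S 0 j) % h ∧
      ((cv (τ + a * Q) j + S 0 j) / h) % mm 1 j = ((τ + S 0 j) / h) % mm 1 j := by
    intro a j
    rw [show cv (τ + a * Q) j + S 0 j = τ + S 0 j + a * Q by simp [cv]; ring]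
    exact mod_inv hh ((hHd j).mul_left a)
  have hbg : ∀ a i : ℤ, C.B (cv (τ + a * Q) - i • ee 0) = C.B (cv τ - i • ee 0) :=
    fun a i => bg_inv hB i2 (hQ.mul_left a) i
  have r0 : ∀ a : ℤ, 0 ≤ a % h := fun a => Int.emod_nonneg a hh.ne'
  have ry1 := hC.r1
  have ryo := hC.ro
  rw [hM] at ry1 ryo
  obtain ⟨P1, s1, p1, q1⟩ := rayR hh ry1 ((τ + S 0 0) % h).toNat (cv τ)
  obtain ⟨Po, so, po, qo⟩ := rayR hh ryo ((τ + S 0 1) % h).toNat (cv τ)
  rw [Int.toNat_of_nonneg (r0 _)] at q1 qo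
  obtain ⟨R, R1, R2, R3, R4, R', hR', hcard⟩ : ∃ R : Finset ℤ, (τ + S 0 0) % h ∈ R ∧
      (τ + S 0 1) % h ∈ R ∧ (τ + S 0 0) % h - (s1 + 1) ∈ R ∧ (τ + S 0 1) % h - (so + 1) ∈ R ∧
      ∃ R' : Finset ℤ, (∀ a, a ∉ R' → gd R a) ∧ (1 ∈ R' ∧ R'.card ≤ 10) := by
    refine ⟨{(τ + S 0 0) % h, (τ + S 0 1) % h, (τ + S 0 0) % h - (s1 + 1),
      (τ + S 0 1) % h - (so + 1)}, by simp, by simp, by simp, by simp, ?_⟩
    generalize (τ + S 0 0) % h - (s1 + 1) = c
    generalize (τ + S 0 1) % h - (so + 1) = d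
    generalize (τ + S 0 0) % h = a
    generalize (τ + S 0 1) % h = b
    refine ⟨[0, 1, a, b, c, d, a + 1, b + 1, c + 1, d + 1].toFinset, fun x hx => ?_, by simp,
      List.toFinset_card_le _⟩
    simp only [List.mem_toFinset, List.mem_cons, List.not_mem_nil, or_false, not_or] at hx
    simp only [gd, Finset.mem_insert, Finset.mem_singleton, not_or]
    omega
  have hth' := thin_mono (hth R') hcard.2 (fun _ h => h)
  have same : ∀ a b : ℤ, (∀ k, k ≤ L → K < e * (k + 1) → dM h S k (cv (τ + a * Q)) 0 ∉ R') →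
      (∀ k, k ≤ L → K < e * (k + 1) → dM h S k (cv (τ + b * Q)) 0 ∉ R') →
      Rel R (A (idx (HH h) (S 0) (cv (τ + a * Q)))) (A (idx (HH h) (S 0) (cv (τ + b * Q)))) ∧
      ((physM h (S 0) A (cv (τ + a * Q))).acc → (physM h (S 0) A (cv (τ + b * Q))).acc) := by
    intro a b ha hb
    have ia : inert (dM h S L1 (cv (τ + a * Q))) := by
      intro j hj
      rw [hdi a 0 h1 j (Or.inl hj), ← i1 j hj]; simp
    constructor
    · apply hH.rare R _ _ L1 _ ia
      intro k hk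
      refine ⟨fun j hj => hdi a b (by omega) j (Or.inl hj), ?_⟩
      by_cases hv : K < e * (k + 1)
      · exact Or.inr ⟨hR' _ (ha k (by omega) hv), hR' _ (hb k (by omega) hv)⟩
      · exact Or.inl (hdi a b (by omega) 0 (Or.inr (by omega)))
    · rintro ⟨c1, c2, D, c3, c4⟩
      obtain ⟨μ, m1, m2, m3⟩ := hH.cen1 _ L1 ia c1
      have v1 : e * (μ + 1) ≤ K := by
        by_contra hv
        exact ha μ (by omega) (by omega) (by rw [dM, m3]; exact hcard.1)
      have v2 : ∀ k, k ≤ μ → e * (k + 1) ≤ K := fun k hk =>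
        (Nat.mul_le_mul_left _ (by omega)).trans v1
      have m2' : ∀ c : ℤ, ∀ k, k < μ → ∀ j, dM h S k (cv (τ + c * Q)) j = 0 := fun c k hk j => by
        rw [hdi c a (by omega) j (Or.inr (v2 k hk.le))]; exact m2 k hk j
      have m3' : ∀ c : ℤ, ∀ j, dM h S μ (cv (τ + c * Q)) j = 1 := fun c j => by
        rw [hdi c a (by omega) j (Or.inr v1)]; exact m3 j
      have v3 : e * (μ + 2) ≤ K := by
        by_contra hv
        refine hE ⟨μ, v1, by omega, by simpa using m2' 0, by simpa using m3' 0, fun j hj => ?_⟩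
        rw [← (hm a j).1, ← (hm a j).2]
        exact c2 j hj
      obtain ⟨_, n2⟩ := hH.cen2 _ μ m2 m3
      obtain ⟨n3, n4⟩ := hH.cen2 _ μ (m2' b) (m3' b)
      refine ⟨n3, fun j hj => ?_, _, n4 0, ?_⟩
      · rw [(hm b j).1, (hm b j).2, ← (hm a j).1, ← (hm a j).2]
        exact c2 j hj
      · rw [n2 0] at c3
        simp only [Option.some.injEq] at c3
        rw [(hm b 0).1, ← (hm a 0).1]
        have := hdi b a (k := μ + 1) (by omega) 0 (Or.inr v3)
        simp only [dM] at this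
        rw [this, c3]
        exact c4
  obtain ⟨j0, hj0⟩ := thin_exists hth' hl10
  refine ⟨C.row (τ + j0 * Q), thin_mono hth' le_rfl (fun j hj => ?_)⟩
  obtain ⟨e1, e2⟩ := same j j0 hj hj0
  obtain ⟨_, e3⟩ := same j0 j hj0 hj
  have hb0 : ∀ a : ℤ, (A (idx (HH h) (S 0) (cv (τ + a * Q)))).b 0 = 0 ∨
      (A (idx (HH h) (S 0) (cv (τ + a * Q)))).b 0 = 1 := by
    intro a
    have := (hA (idx (HH h) (S 0) (cv (τ + a * Q)))).1.rb 0
    simp only [mm_zero] at this
    omega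
  apply Sy.ext4
  · simp only [Conf.row, Conf.z, hM]
    apply Mn.ext8
    · funext i; simp only [physM, hm]
    · funext i; simp only [physM, hm]
    · simp only [physM, hm]
    · funext i; simp only [physM, hm]
    · apply rel_clamp e1
      rcases e1.rb.2 with h4 | h4
      · exact h4
      · have := hb0 j
        have := h4.1.1
        have := h4.1.2.1
        omega
    · simp only [physM, hm]; exact rel_lane' e1 R1
    · simp only [physM, hm]; rw [rel_lane e1 R2]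
    · exact ⟨e2, e3⟩
  · simpa [Conf.row, Conf.z] using (hbg j 0).trans (hbg j0 0).symm
  · simp only [Conf.row, Conf.z]
    rw [q1 _ _ (hm j 0).1 (hbg j), q1 _ _ (hm j0 0).1 (hbg j0)]
    refine and_congr_right (fun hp => ?_)
    have h4 := p1 hp
    obtain ⟨a1, a2, _⟩ := back_in hh (S 0) (cv (τ + j * Q)) 0 (s1 + 1)
      (by rw [(hm j 0).1]; push_cast; omega)
    obtain ⟨a3, a4, _⟩ := back_in hh (S 0) (cv (τ + j0 * Q)) 0 (s1 + 1)
      (by rw [(hm j0 0).1]; push_cast; omega)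
    push_cast at a1 a2 a3 a4
    simp only [physM, a1, a2, a3, a4, hm]
    exact rel_lane' e1 R3
  · simp only [Conf.row, Conf.z]
    rw [qo _ _ (hm j 1).1 (hbg j), qo _ _ (hm j0 1).1 (hbg j0)]
    refine and_congr_right (fun hp => ?_)
    have h4 := po hp
    obtain ⟨a1, a2, a5⟩ := back_in hh (S 0) (cv (τ + j * Q)) 1 (so + 1)
      (by rw [(hm j 1).1]; push_cast; omega)
    obtain ⟨a3, a4, a6⟩ := back_in hh (S 0) (cv (τ + j0 * Q)) 1 (so + 1)
      (by rw [(hm j0 1).1]; push_cast; omega)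
    push_cast at a1 a2 a3 a4 a5 a6
    simp only [physM, a1, a2, a3, a4, a5, a6, hm]
    rw [rel_lane e1 R4]

end Pool.Agent.Lib.MP_4b554f_an
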