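import Pool.Agent.Lib.MP_4b554f_an.Ext

/-!
Thin sets of shifts, and the arithmetic of digits.
-/

set_option autoImplicit false
set_option linter.unusedSimpArgs false
set_option linter.unnecessarySeqFocus false
set_option linter.unusedVariables false

namespace Pool.Agent.Lib.MP_4b554f_an

/-- The failure set of `good` is small at each level of the `l`-adic expansion. -/
def Thin (l ρ : ℕ) (good : ℕ → Prop) : Prop :=
  ∃ (E : ℕ → ℕ → Prop) (top J : ℕ),
    (∀ b j, ∃ T : Finset ℕ, T.card ≤ ρ ∧ ∀ a, a < l → E b (j + l ^ b * a) → a ∈ T) ∧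
    (∀ b j c, E b (j + l ^ (b + 1) * c) → E b j) ∧
    ∀ j, J ≤ j → (∀ b, b < top → ¬ E b j) → good j

theorem thin_mono {l ρ ρ' : ℕ} {g g' : ℕ → Prop} (h : Thin l ρ g) (h1 : ρ ≤ ρ')
    (h2 : ∀ j, g j → g' j) : Thin l ρ' g' := by
  obtain ⟨E, top, J, a, b, c⟩ := h
  refine ⟨E, top, J, fun x y => ?_, b, fun j h3 h4 => h2 j (c j h3 h4)⟩
  obtain ⟨T, h3, h4⟩ := a x y
  exact ⟨T, h3.trans h1, h4⟩

theorem thin_and {l ρ ρ' : ℕ} {g g' : ℕ → Prop} (h : Thin l ρ g) (h' : Thin l ρ' g') :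
    Thin l (ρ + ρ') (fun j => g j ∧ g' j) := by
  obtain ⟨E, top, J, a, b, c⟩ := h
  obtain ⟨E', top', J', a', b', c'⟩ := h'
  refine ⟨fun x y => E x y ∨ E' x y, top + top', J + J', fun x y => ?_,
    fun x y z h => h.imp (b x y z) (b' x y z), fun j h3 h4 => ⟨c j (by omega) ?_, c' j (by omega) ?_⟩⟩
  · obtain ⟨T, h3, h4⟩ := a x y
    obtain ⟨T', h3', h4'⟩ := a' x y
    refine ⟨T ∪ T', (Finset.card_union_le _ _).trans (by omega), fun z h5 h6 => ?_⟩
    exact Finset.mem_union.2 (h6.imp (h4 z h5) (h4' z h5))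
  · exact fun x h5 h6 => h4 x (by omega) (Or.inl h6)
  · exact fun x h5 h6 => h4 x (by omega) (Or.inr h6)

theorem thin_ev {l : ℕ} {g : ℕ → Prop} (J : ℕ) (h : ∀ j, J ≤ j → g j) : Thin l 0 g :=
  ⟨fun _ _ => False, 0, J, fun _ _ => ⟨∅, le_rfl, fun _ _ h => h.elim⟩, fun _ _ _ h => h,
    fun j h1 _ => h j h1⟩

theorem thin_finset {ι : Type*} {l ρ : ℕ} (F : Finset ι) (g : ι → ℕ → Prop)
    (h : ∀ i ∈ F, Thin l ρ (g i)) : Thin l (F.card * ρ) (fun j => ∀ i ∈ F, g i j) := by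
  classical
  induction F using Finset.induction_on with
  | empty => exact thin_mono (thin_ev 0 (fun j _ => trivial)) (by simp) (by simp)
  | insert i F hi ih =>
    have h1 := thin_and (h i (Finset.mem_insert_self _ _))
      (ih (fun k hk => h k (Finset.mem_insert_of_mem hk)))
    refine thin_mono h1 (by rw [Finset.card_insert_of_notMem hi]; nlinarith) (fun j hj => ?_)
    simpa using hj

theorem exists_avoid {l : ℕ} (T : Finset ℕ) (h : T.card < l) : ∃ a, a < l ∧ a ∉ T := by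
  by_contra hc
  push Not at hc
  have : Finset.range l ⊆ T := fun a ha => hc a (Finset.mem_range.1 ha)
  have := Finset.card_le_card this
  simp at this
  omega

theorem thin_exists {l ρ : ℕ} {g : ℕ → Prop} (h : Thin l ρ g) (hl : ρ < l) : ∃ j, g j := by
  obtain ⟨E, top, J, a, b, c⟩ := h
  have inv : ∀ x t y z, x < t → E x (y + l ^ t * z) → E x y := by
    intro x t y z h1 h2
    apply b x y (l ^ (t - (x + 1)) * z)
    rwa [← mul_assoc, ← pow_add, show x + 1 + (t - (x + 1)) = t by omega]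
  have key : ∀ t, ∃ j, ∀ x, x < t → ¬ E x j := by
    intro t
    induction t with
    | zero => exact ⟨0, fun x hx => by omega⟩
    | succ t ih =>
      obtain ⟨j, hj⟩ := ih
      obtain ⟨T, h1, h2⟩ := a t j
      obtain ⟨z, h3, h4⟩ := exists_avoid T (show T.card < l by omega)
      refine ⟨j + l ^ t * z, fun x hx h5 => ?_⟩
      by_cases h6 : x = t
      · subst h6; exact h4 (h2 z h3 h5)
      · exact hj x (by omega) (inv x t j z (by omega) h5)
  obtain ⟨j, hj⟩ := key top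
  refine ⟨j + l ^ top * J, c _ ?_ (fun x hx h5 => hj x hx (inv x top j J hx h5))⟩
  have : 1 ≤ l ^ top := Nat.one_le_pow _ _ (by omega)
  nlinarith

theorem NN_succ (m m' H : V) (k : ℕ) (j : Fin 4) :
    NN m m' H (k + 1) j = NN m m' H k j * mk m m' k j := rfl

theorem dgt_eq {m m' H : V} {S : ℕ → V} {k : ℕ} {x : V} {j : Fin 4} (hN : NN m m' H k j ≠ 0)
    {a : ℤ} (h : NN m m' H (k + 1) j ∣ x j + S (k + 1) j - a) :
    dgt m m' H S k x j = (a / NN m m' H k j) % mk m m' k j := by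
  obtain ⟨c, hc⟩ := h
  unfold dgt
  rw [show x j + S (k + 1) j = a + NN m m' H k j * (mk m m' k j * c) by
    rw [NN_succ] at hc; linarith, Int.add_mul_ediv_left _ _ hN, Int.add_mul_emod_self_left]

theorem dgt_inv {m m' H : V} {S : ℕ → V} {k : ℕ} {x x' : V} {j : Fin 4} (hN : NN m m' H k j ≠ 0)
    (h : NN m m' H (k + 1) j ∣ x j - x' j) : dgt m m' H S k x j = dgt m m' H S k x' j := by
  rw [dgt_eq hN (a := x' j + S (k + 1) j) (by simpa using h)]
  rfl

theorem NN_dvd (m m' H : V) (j : Fin 4) {k k' : ℕ} (h : k ≤ k') :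
    NN m m' H k j ∣ NN m m' H k' j := by
  induction k', h using Nat.le_induction with
  | base => rfl
  | succ n _ ih => exact ih.mul_right _

theorem cmp_dvd {m m' H : V} {S : ℕ → V} (hc : ∀ k j, NN m m' H k j ∣ S (k + 1) j - S k j)
    (j : Fin 4) {k k' : ℕ} (h : k ≤ k') : NN m m' H k j ∣ S k' j - S k j := by
  induction k', h using Nat.le_induction with
  | base => simp
  | succ n hn ih =>
    have := dvd_add ((NN_dvd m m' H j hn).trans (hc n j)) ih
    simpa using this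

theorem NN_pos {m m' H : V} (hm : ∀ i, 2 ≤ m i) (hm' : ∀ i, 2 ≤ m' i) (hH : ∀ i, 0 < H i)
    (k : ℕ) (i : Fin 4) : 0 < NN m m' H k i := by
  induction k with
  | zero => exact hH i
  | succ k ih =>
    have : 2 ≤ mk m m' k i := by unfold mk; split_ifs; exacts [hm i, hm' i]
    rw [NN_succ]; positivity

theorem dig_of_pos {m m' H : V} {S : ℕ → V} (hm : ∀ i, 2 ≤ m i) (hm' : ∀ i, 2 ≤ m' i)
    (hH : ∀ i, 0 < H i) (hc : ∀ k j, NN m m' H k j ∣ S (k + 1) j - S k j) {x : V} {j : Fin 4}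
    {μ : ℕ} {r : ℤ} (h0 : 0 ≤ r) (h1 : r < H j)
    (h : NN m m' H (μ + 1) j ∣ x j + S (μ + 1) j - (NN m m' H μ j + r)) :
    (∀ k, k < μ → dgt m m' H S k x j = 0) ∧ dgt m m' H S μ x j = 1 ∧ H j ∣ x j + S 0 j - r := by
  have hp := fun k => NN_pos hm hm' hH k j
  have hle : ∀ k, r < NN m m' H k j := fun k =>
    h1.trans_le (Int.le_of_dvd (hp k) (NN_dvd m m' H j (Nat.zero_le k)))
  have hd : ∀ k, k ≤ μ → NN m m' H k j ∣ x j + S k j - r := by
    intro k hk
    have h2 := (NN_dvd m m' H j (show k ≤ μ + 1 by omega)).trans h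
    have h3 := cmp_dvd hc j (show k ≤ μ + 1 by omega)
    have h4 := NN_dvd m m' H j hk
    have := dvd_add (dvd_sub h2 h3) h4
    rwa [show ∀ a b c d e : ℤ, a + b - (c + d) - (b - e) + c = a + e - d from
      fun a b c d e => by ring] at this
  refine ⟨fun k hk => ?_, ?_, hd 0 (Nat.zero_le _)⟩
  · rw [dgt_eq (hp k).ne' (hd (k + 1) hk), Int.ediv_eq_zero_of_lt h0 (hle k)]; simp
  · rw [dgt_eq (hp μ).ne' h, show NN m m' H μ j + r = r + NN m m' H μ j * 1 by ring,
      Int.add_mul_ediv_left _ _ (hp μ).ne', Int.ediv_eq_zero_of_lt h0 (hle μ), zero_add]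
    have : 2 ≤ mk m m' μ j := by unfold mk; split_ifs; exacts [hm j, hm' j]
    exact Int.emod_eq_of_lt (by omega) (by omega)

theorem pos_step {m m' H : V} {S : ℕ → V} (hc : ∀ k j, NN m m' H k j ∣ S (k + 1) j - S k j)
    (x : V) (j : Fin 4) (k : ℕ) {r : ℤ} (h0 : 0 ≤ r) (h1 : r < NN m m' H k j)
    (h : NN m m' H k j ∣ x j + S k j - r) :
    NN m m' H (k + 1) j ∣ x j + S (k + 1) j - (NN m m' H k j * dgt m m' H S k x j + r) := by
  have h2 := dvd_add h (hc k j)
  obtain ⟨c, hc'⟩ := h2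
  have h3 : (x j + S (k + 1) j) / NN m m' H k j = c :=
    ((Int.ediv_emod_unique (r := r) (by omega)).2 ⟨by linarith, h0, h1⟩).1
  have h4 := Int.mul_ediv_add_emod c (mk m m' k j)
  refine ⟨c / mk m m' k j, ?_⟩
  unfold dgt
  rw [h3, NN_succ, mul_assoc, show mk m m' k j * (c / mk m m' k j) = c - c % mk m m' k j by linarith]
  linarith

theorem pos_of_dig {m m' H : V} {S : ℕ → V} (hm : ∀ i, 2 ≤ m i) (hm' : ∀ i, 2 ≤ m' i)
    (hH : ∀ i, 0 < H i) (hc : ∀ k j, NN m m' H k j ∣ S (k + 1) j - S k j) {x : V} {j : Fin 4}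
    {μ : ℕ} (h1 : ∀ k, k < μ → dgt m m' H S k x j = 0) (h2 : dgt m m' H S μ x j = 1) :
    NN m m' H (μ + 1) j ∣ x j + S (μ + 1) j - (NN m m' H μ j + (x j + S 0 j) % H j) := by
  have hp := fun k => NN_pos hm hm' hH k j
  have h0 := Int.emod_nonneg (x j + S 0 j) (hH j).ne'
  have hle : ∀ k, (x j + S 0 j) % H j < NN m m' H k j := fun k =>
    (Int.emod_lt_of_pos _ (hH j)).trans_le (Int.le_of_dvd (hp k) (NN_dvd m m' H j (Nat.zero_le k)))
  have hd : ∀ k, k ≤ μ → NN m m' H k j ∣ x j + S k j - (x j + S 0 j) % H j := by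
    intro k
    induction k with
    | zero => intro _; exact Int.dvd_self_sub_emod
    | succ k ih =>
      intro hk
      simpa [h1 k (by omega)] using pos_step hc x j k h0 (hle k) (ih (by omega))
  simpa [h2] using pos_step hc x j μ h0 (hle μ) (hd μ le_rfl)

def NM (h : ℤ) : ℕ → V := NN (mm 2) (mm h) (HH h)
def dM (h : ℤ) : (ℕ → V) → ℕ → V → V := dgt (mm 2) (mm h) (HH h)
def dB : (ℕ → V) → ℕ → V → V := dgt (mm 2) (mm 2) 1

theorem NM_ne0 (h : ℤ) (k : ℕ) {j : Fin 4} (hj : j ≠ 0) :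
    NN (mm 2) (mm h) (HH h) k j = h * mm 1 j ^ (k + 1) := by
  induction k with
  | zero => simp [NN, HH]
  | succ k ih =>
    rw [NN_succ, ih, pow_succ _ (k + 1), mul_assoc]
    congr 2
    unfold mk; split_ifs <;> exact mm_ne0 _ _ hj

theorem NM_zero (h : ℤ) (k : ℕ) : NN (mm 2) (mm h) (HH h) (k + 1) 0 = 2 * h ^ (k + 1) := by
  induction k with
  | zero => simp [NN, HH, mk]; ring
  | succ k ih => rw [NN_succ, ih]; simp [mk]; ring

theorem NB_eq (k : ℕ) (j : Fin 4) : NN (mm 2) (mm 2) 1 k j = mm 2 j ^ k := by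
  induction k with
  | zero => simp [NN]
  | succ k ih => rw [NN_succ, ih, pow_succ]; simp [mk]

theorem mm2_dvd (j : Fin 4) : mm 2 j ∣ 2002 := by
  fin_cases j <;> simp [mm]

theorem mm1_dvd (j : Fin 4) : mm 1 j ∣ 1001 := by
  fin_cases j <;> simp [mm]

def cv (n : ℤ) : V := fun _ => n

theorem NM0_dvd {l e K k : ℕ} {u W : ℤ} (h1 : e * (k + 1) ≤ K) (h2 : (2 * u) ^ (k + 1) ∣ W) :
    NN (mm 2) (mm (l ^ e * u)) (HH (l ^ e * u)) (k + 1) 0 ∣ l ^ K * W := by
  rw [NM_zero, mul_pow, ← pow_mul, mul_left_comm]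
  apply mul_dvd_mul (pow_dvd_pow _ h1)
  refine dvd_trans ?_ h2
  rw [mul_pow]
  exact mul_dvd_mul (dvd_pow_self _ (by omega)) dvd_rfl

theorem thin_dig {l e K L : ℕ} (hl : l.Prime) {u W : ℤ} (hu : 0 < u) (he : e ≤ K)
    (hW : ¬ (l : ℤ) ∣ W) (hW' : (2 * u) ^ (L + 1) ∣ W) (S : ℕ → V) (τ : ℤ) (R : Finset ℤ) :
    Thin l R.card (fun j => ∀ k, k ≤ L → K < e * (k + 1) →
      dM (l ^ e * u) S k (cv (τ + j * (l ^ K * W))) 0 ∉ R) := by
  classical
  have hl0 : (0 : ℤ) < l := by exact_mod_cast hl.pos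
  refine ⟨fun b j => ∃ k, k ≤ L ∧ e * (k + 1) = K + b + 1 ∧
    dM (l ^ e * u) S k (cv (τ + j * (l ^ K * W))) 0 ∈ R, e * (L + 1), 0, fun b j => ?_, ?_, ?_⟩
  · by_cases hk : ∃ k, k ≤ L ∧ e * (k + 1) = K + b + 1
    · obtain ⟨k, hk1, hk2⟩ := hk
      have he0 : 0 < e := by
        rcases Nat.eq_zero_or_pos e with h | h
        · subst h; simp at hk2
        · exact h
      obtain ⟨k, rfl⟩ : ∃ k', k = k' + 1 := by
        rcases k with _ | k
        · omega
        · exact ⟨k, rfl⟩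
      refine ⟨(Finset.range l).filter (fun a => dM (l ^ e * u) S (k + 1)
        (cv (τ + ((j + l ^ b * a : ℕ) : ℤ) * (l ^ K * W))) 0 ∈ R), ?_, ?_⟩
      · apply Finset.card_le_card_of_injOn (fun a => dM (l ^ e * u) S (k + 1)
          (cv (τ + ((j + l ^ b * a : ℕ) : ℤ) * (l ^ K * W))) 0)
        · intro a ha
          exact (Finset.mem_filter.1 (Finset.mem_coe.1 ha)).2
        · intro a ha a' ha' haa
          have h1 := Finset.mem_range.1 (Finset.mem_filter.1 (Finset.mem_coe.1 ha)).1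
          have h2 := Finset.mem_range.1 (Finset.mem_filter.1 (Finset.mem_coe.1 ha')).1
          obtain ⟨W', hW2⟩ : 2 * u ^ (k + 1) ∣ W := by
            refine dvd_trans ?_ ((pow_dvd_pow _ (show k + 1 ≤ L + 1 by omega)).trans hW')
            rw [mul_pow]
            exact mul_dvd_mul (dvd_pow_self _ (by omega)) dvd_rfl
          obtain ⟨e', rfl⟩ : ∃ e', e = e' + 1 := ⟨e - 1, by omega⟩
          have h3 : ∀ a : ℕ, τ + ((j + l ^ b * a : ℕ) : ℤ) * (l ^ K * W) + S (k + 1 + 1) 0 =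
              (τ + j * (l ^ K * W) + S (k + 1 + 1) 0) +
              (2 * (l ^ (e' + 1) * u) ^ (k + 1)) * (l ^ e' * W' * a) := by
            intro a
            have h4 : (l : ℤ) ^ b * l ^ K = (l ^ (e' + 1)) ^ (k + 1) * l ^ e' := by
              rw [← pow_mul, ← pow_add, ← pow_add]
              congr 1
              nlinarith
            push_cast
            rw [mul_pow]
            have h5 : (l : ℤ) ^ b * a * (l ^ K * W) = (l ^ b * l ^ K) * a * W := by ring
            rw [add_mul, h5, h4, hW2]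
            ring
          have hne : (2 * ((l : ℤ) ^ (e' + 1) * u) ^ (k + 1)) ≠ 0 := by positivity
          simp only [dM, dgt, cv, NM_zero, h3, Int.add_mul_ediv_left _ _ hne, mk,
            Nat.succ_ne_zero, if_false, mm_zero] at haa
          rw [Int.emod_eq_emod_iff_emod_sub_eq_zero] at haa
          have h7 := (Dvd.intro _ rfl : (l : ℤ) ^ (e' + 1) ∣ l ^ (e' + 1) * u).trans
            (Int.dvd_of_emod_eq_zero haa)
          rw [show ∀ q : ℤ, q + l ^ e' * W' * a - (q + l ^ e' * W' * a') =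
            l ^ e' * (W' * (a - a')) from fun q => by ring, pow_succ,
            mul_dvd_mul_iff_left (by positivity)] at h7
          have hp : Prime (l : ℤ) := Nat.prime_iff_prime_int.1 hl
          rcases hp.dvd_or_dvd h7 with h8 | h8
          · exact absurd (hW2 ▸ h8.mul_left _) hW
          · have := Int.eq_zero_of_abs_lt_dvd h8 (by rw [abs_lt]; omega)
            omega
      · rintro a ha ⟨k', h1, h2, h3⟩
        have : k' = k + 1 := by
          have : e * (k' + 1) = e * (k + 1 + 1) := by omega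
          have := Nat.eq_of_mul_eq_mul_left he0 this
          omega
        subst this
        exact Finset.mem_filter.2 ⟨Finset.mem_range.2 ha, h3⟩
    · exact ⟨∅, by simp, fun a _ ⟨k, h1, h2, _⟩ => absurd ⟨k, h1, h2⟩ hk⟩
  · rintro b j c ⟨k, h1, h2, h3⟩
    refine ⟨k, h1, h2, ?_⟩
    have hne : NN (mm 2) (mm (l ^ e * u)) (HH (l ^ e * u)) k 0 ≠ 0 := by
      rcases k with _ | k
      · simp [NN, HH]; omega
      · rw [NM_zero]; positivity
    rw [dM, dgt_inv hne (x' := cv (τ + j * (l ^ K * W)))] at h3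
    · exact h3
    · have h4 := NM0_dvd (l := l) h2.le ((pow_dvd_pow _ (show k + 1 ≤ L + 1 by omega)).trans hW')
      simp only [cv]
      push_cast
      rw [show τ + (j + l ^ (b + 1) * c) * (l ^ K * W) - (τ + j * (l ^ K * W)) =
        (l ^ (K + b + 1) * W) * c by ring]
      exact h4.mul_right _
  · intro j _ h1 k h2 h3 h4
    refine h1 (e * (k + 1) - K - 1) ?_ ⟨k, h2, by omega, h4⟩
    have : e * (k + 1) ≤ e * (L + 1) := Nat.mul_le_mul_left _ (by omega)
    omega

end Pool.Agent.Lib.MP_4b554f_an
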